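import Mathlib

set_option autoImplicit false

namespace Pool.Agent.Helper241Spread

open scoped ENNReal

/-- Supramenability, as in the problem file. -/
def Supramenable (G : Type*) [Group G] : Prop :=
  ∀ A : Set G, A.Nonempty →
    ∃ μ : Set G → ENNReal,
      μ ∅ = 0 ∧
      (∀ B C : Set G, Disjoint B C → μ (B ∪ C) = μ B + μ C) ∧
      (∀ (g : G) (B : Set G), μ ((fun x => g * x) ⁻¹' B) = μ B) ∧
      μ A = 1

section Tree

variable {G : Type*} [Group G]

omit [Group G] in
lemma mono_of_add {μ : Set G → ENNReal}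
    (h1 : ∀ B C : Set G, Disjoint B C → μ (B ∪ C) = μ B + μ C) {B C : Set G} (h : B ⊆ C) :
    μ B ≤ μ C := by
  have : μ (B ∪ (C \ B)) = μ B + μ (C \ B) := h1 _ _ Set.disjoint_sdiff_right
  rw [Set.union_sdiff_cancel h] at this
  rw [this]; exact le_self_add

omit [Group G] in
lemma add_finset {μ : Set G → ENNReal} (h0 : μ ∅ = 0)
    (h1 : ∀ B C : Set G, Disjoint B C → μ (B ∪ C) = μ B + μ C)
    {ι : Type*} (s : Finset ι) (f : ι → Set G)
    (hd : (s : Set ι).PairwiseDisjoint f) :
    μ (⋃ i ∈ s, f i) = ∑ i ∈ s, μ (f i) := by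
  classical
  induction s using Finset.induction_on with
  | empty => simpa using h0
  | insert a s ha ih =>
    rw [Finset.sum_insert ha, Finset.set_biUnion_insert, h1, ih]
    · exact hd.subset (by simp)
    · rw [Set.disjoint_iUnion₂_right]
      intro i hi
      apply hd (by simp) (by simp [hi])
      rintro rfl
      exact ha hi

lemma left_image {μ : Set G → ENNReal}
    (h2 : ∀ (g : G) (B : Set G), μ ((fun x => g * x) ⁻¹' B) = μ B) (g : G) (B : Set G) :
    μ ((fun x => g * x) '' B) = μ B := by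
  have := h2 g⁻¹ B
  rw [← this]
  congr 1
  ext x
  simp only [Set.mem_image, Set.mem_preimage]
  constructor
  · rintro ⟨y, hy, rfl⟩
    simpa using hy
  · intro hx
    exact ⟨g⁻¹ * x, hx, by simp⟩

/-- An injective binary tree with bounded steps obstructs supramenability. -/
theorem not_supramenable_of_tree (K : Finset G) (τ : List Bool → G)
    (hinj : Function.Injective τ)
    (hstep : ∀ b w, ∃ k ∈ K, τ (b :: w) = k * τ w) : ¬ Supramenable G := by
  classical
  intro hS
  obtain ⟨μ, h0, h1, h2, hA⟩ := hS (Set.range τ) ⟨τ [], [], rfl⟩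
  -- the two halves
  have half : ∀ b : Bool, μ (Set.range fun w => τ (b :: w)) = 1 := by
    intro b
    have e1 : (Set.range fun w => τ (b :: w)) =
        ⋃ k ∈ K, (fun x => k * x) '' {x | ∃ w, τ w = x ∧ τ (b :: w) = k * x} := by
      ext y
      simp only [Set.mem_range, Set.mem_iUnion, Set.mem_image, Set.mem_ofPred_eq, exists_prop]
      constructor
      · rintro ⟨w, rfl⟩
        obtain ⟨k, hk, h⟩ := hstep b w
        exact ⟨k, hk, τ w, ⟨w, rfl, h⟩, h.symm⟩
      · rintro ⟨k, hk, x, ⟨w, hw, h⟩, rfl⟩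
        exact ⟨w, h⟩
    have e2 : Set.range τ = ⋃ k ∈ K, {x | ∃ w, τ w = x ∧ τ (b :: w) = k * x} := by
      ext y
      simp only [Set.mem_range, Set.mem_iUnion, Set.mem_ofPred_eq, exists_prop]
      constructor
      · rintro ⟨w, rfl⟩
        obtain ⟨k, hk, h⟩ := hstep b w
        exact ⟨k, hk, w, rfl, h⟩
      · rintro ⟨k, hk, w, hw, h⟩
        exact ⟨w, hw⟩
    have d2 : (K : Set G).PairwiseDisjoint
        (fun k => {x | ∃ w, τ w = x ∧ τ (b :: w) = k * x}) := by
      intro k hk k' hk' hne
      rw [Function.onFun, Set.disjoint_left]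
      rintro x ⟨w, hw, h⟩ ⟨w', hw', h'⟩
      have : w = w' := hinj (hw.trans hw'.symm)
      subst this
      exact hne (mul_right_cancel (h.symm.trans h'))
    have d1 : (K : Set G).PairwiseDisjoint
        (fun k => (fun x => k * x) '' {x | ∃ w, τ w = x ∧ τ (b :: w) = k * x}) := by
      intro k hk k' hk' hne
      rw [Function.onFun, Set.disjoint_left]
      rintro y ⟨x, ⟨w, hw, h⟩, rfl⟩ ⟨x', ⟨w', hw', h'⟩, hy⟩
      simp only at hy
      have : (b :: w) = (b :: w') := hinj (h.trans (hy.symm.trans h'.symm))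
      have hww : w = w' := by simpa using this
      subst hww
      have : x = x' := hw.symm.trans hw'
      subst this
      exact hne (mul_right_cancel hy).symm
    rw [e1, add_finset h0 h1 K _ d1, ← hA, e2, add_finset h0 h1 K _ d2]
    exact Finset.sum_congr rfl fun k _ => left_image h2 k _
  have hd : Disjoint (Set.range fun w => τ (true :: w)) (Set.range fun w => τ (false :: w)) := by
    rw [Set.disjoint_left]
    rintro x ⟨w, rfl⟩ ⟨w', h⟩
    have := hinj h
    simp at this
  have := h1 _ _ hd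
  rw [half true, half false] at this
  have hle : μ ((Set.range fun w => τ (true :: w)) ∪ (Set.range fun w => τ (false :: w))) ≤
      μ (Set.range τ) := by
    apply mono_of_add h1
    rintro x (⟨w, rfl⟩ | ⟨w, rfl⟩) <;> exact ⟨_, rfl⟩
  rw [this, hA] at hle
  norm_num at hle

/-- Compactness: injective binary trees with steps in `K` of all finite depths give an infinite one. -/
theorem exists_tree_of_depth (K : Finset G)
    (h : ∀ D : ℕ, ∃ τ : List Bool → G, τ [] = 1 ∧
      (∀ w w', w.length ≤ D → w'.length ≤ D → τ w = τ w' → w = w') ∧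
      (∀ b w, w.length < D → ∃ k ∈ K, τ (b :: w) = k * τ w)) :
    ∃ τ : List Bool → G, Function.Injective τ ∧ ∀ b w, ∃ k ∈ K, τ (b :: w) = k * τ w := by
  classical
  choose T h1 h2 h3 using h
  set U : Ultrafilter ℕ := Filter.hyperfilter ℕ with hU
  have ev : ∀ n : ℕ, ∀ᶠ D in (U : Filter ℕ), n ≤ D := by
    intro n
    have : ∀ᶠ D in Filter.atTop, n ≤ D := Filter.eventually_ge_atTop n
    rw [← Nat.cofinite_eq_atTop] at this
    exact this.filter_mono (Filter.hyperfilter_le_cofinite)
  have key : ∀ w : List Bool, ∃ g : G, ∀ᶠ D in (U : Filter ℕ), T D w = g := by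
    intro w
    induction w with
    | nil => exact ⟨1, Filter.Eventually.of_forall h1⟩
    | cons b w ih =>
      obtain ⟨g, hg⟩ := ih
      have : ∀ᶠ D in (U : Filter ℕ), ∃ k ∈ K, T D (b :: w) = k * g := by
        filter_upwards [hg, ev (w.length + 1)] with D hD hD'
        obtain ⟨k, hk, h⟩ := h3 D b w (by omega)
        exact ⟨k, hk, by rw [h, hD]⟩
      have h4 : (⋃ k ∈ (K : Set G), {D | T D (b :: w) = k * g}) ∈ U := by
        filter_upwards [this] with D hD
        simpa using hD
      rw [Ultrafilter.finite_biUnion_mem_iff K.finite_toSet] at h4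
      obtain ⟨k, hk, h5⟩ := h4
      exact ⟨k * g, h5⟩
  choose τ hτ using key
  refine ⟨τ, ?_, ?_⟩
  · intro w w' he
    have := (((hτ w).and (hτ w')).and ((ev w.length).and (ev w'.length))).exists
    obtain ⟨D, ⟨e1, e2⟩, e3, e4⟩ := this
    exact h2 D w w' e3 e4 (e1.trans (he.trans e2.symm))
  · intro b w
    have := (((hτ w).and (hτ (b :: w))).and (ev (w.length + 1))).exists
    obtain ⟨D, ⟨e1, e2⟩, e3⟩ := this
    obtain ⟨k, hk, h⟩ := h3 D b w (by omega)
    exact ⟨k, hk, by rw [← e2, h, e1]⟩

end Tree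

end Pool.Agent.Helper241Spread
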