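import Pool.Agent.Helper241_Spread.Random

set_option autoImplicit false

namespace Pool.Agent.Helper241Spread

open scoped ENNReal
open TTree

variable {V : Type*} {G : Type*}

/-- Spreading of the kernel `q`. -/
def Spread (pos : V → G) (q : V → PMF V) (C Θ : ℝ≥0∞) : Prop :=
  ∀ (n : ℕ) (u : V) (y : G), ((law q n u).map pos) y ≤ C * Θ ^ n

lemma sub_occ (pos : V → G) (q : V → PMF V) {C Θ : ℝ≥0∞} (hs : Spread pos q C Θ)
    (n D : ℕ) (v : V) (y : G) :
    (sub q D v).toOuterMeasure {t | y ∈ occ pos n t} ≤ 3 ^ n * (C * Θ ^ (n + 1)) := by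
  rw [sub, PMF.toOuterMeasure_bind_apply]
  calc ∑' u, q v u * (rt q D u).toOuterMeasure {t | y ∈ occ pos n t}
      ≤ ∑' u, q v u * (3 ^ n * ((law q n u).map pos) y) :=
        ENNReal.tsum_le_tsum fun u => by gcongr; exact occ_bound pos q n D u y
    _ = 3 ^ n * ∑' u, q v u * ((law q n u).map pos) y := by
        rw [← ENNReal.tsum_mul_left]
        congr 1; funext u; ring
    _ = 3 ^ n * ((law q (n + 1) v).map pos) y := by
        rw [law, PMF.map_bind, PMF.bind_apply]
    _ ≤ 3 ^ n * (C * Θ ^ (n + 1)) := by gcongr; exact hs _ _ _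

lemma geom_bound {Θ : ℝ≥0∞} (C : ℝ≥0∞) (hΘ : 27 * Θ ≤ 2⁻¹) :
    ∑' m : ℕ, (C * Θ) * (27 * Θ) ^ m ≤ 2 * (C * Θ) := by
  rw [ENNReal.tsum_mul_left, ENNReal.tsum_geometric, mul_comm]
  gcongr
  have h2 : (2⁻¹ : ℝ≥0∞) ≤ 1 - 27 * Θ := by
    calc (2⁻¹ : ℝ≥0∞) = 1 - 2⁻¹ := by
          rw [ENNReal.one_sub_inv_two]
      _ ≤ 1 - 27 * Θ := by gcongr
  calc (1 - 27 * Θ)⁻¹ ≤ (2⁻¹ : ℝ≥0∞)⁻¹ := by gcongr
    _ = 2 := inv_inv 2

lemma meet_bound (pos : V → G) (q : V → PMF V) {C Θ : ℝ≥0∞} (hs : Spread pos q C Θ)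
    (hΘ : 27 * Θ ≤ 2⁻¹) (D : ℕ) (v : V) (a : TTree V) :
    (sub q D v).toOuterMeasure {b | meet pos a b} ≤ 2 * (C * Θ) := by
  classical
  have h1 : {b | meet pos a b} = ⋃ m : ℕ, ⋃ n ∈ Finset.range (m + 1), ⋃ y ∈ occ pos n a,
      {b | y ∈ occ pos m b} := by
    ext b
    simp only [meet, Set.mem_ofPred_eq, Set.mem_iUnion, exists_prop]
  rw [h1]
  refine le_trans ?_ (geom_bound C hΘ)
  refine (MeasureTheory.measure_iUnion_le _).trans (ENNReal.tsum_le_tsum fun m => ?_)
  refine (MeasureTheory.measure_biUnion_finset_le _ _).trans ?_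
  calc ∑ n ∈ Finset.range (m + 1), (sub q D v).toOuterMeasure
        (⋃ y ∈ occ pos n a, {b | y ∈ occ pos m b})
      ≤ ∑ n ∈ Finset.range (m + 1), (3 : ℝ≥0∞) ^ m * (3 ^ m * (C * Θ ^ (m + 1))) := by
        apply Finset.sum_le_sum
        intro n hn
        refine (MeasureTheory.measure_biUnion_finset_le _ _).trans ?_
        calc ∑ y ∈ occ pos n a, (sub q D v).toOuterMeasure {b | y ∈ occ pos m b}
            ≤ ∑ y ∈ occ pos n a, 3 ^ m * (C * Θ ^ (m + 1)) :=
              Finset.sum_le_sum fun y _ => sub_occ pos q hs m D v y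
          _ = ((occ pos n a).card : ℝ≥0∞) * (3 ^ m * (C * Θ ^ (m + 1))) := by
              rw [Finset.sum_const, nsmul_eq_mul]
          _ ≤ (3 : ℝ≥0∞) ^ m * (3 ^ m * (C * Θ ^ (m + 1))) := by
              gcongr
              have h3 : (occ pos n a).card ≤ 3 ^ m :=
                (card_occ pos n a).trans (Nat.pow_le_pow_right (by norm_num)
                  (by simp at hn; omega))
              exact_mod_cast h3
    _ = ((m + 1 : ℕ) : ℝ≥0∞) * ((3 : ℝ≥0∞) ^ m * (3 ^ m * (C * Θ ^ (m + 1)))) := by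
        rw [Finset.sum_const, nsmul_eq_mul, Finset.card_range]
    _ ≤ (3 : ℝ≥0∞) ^ m * ((3 : ℝ≥0∞) ^ m * (3 ^ m * (C * Θ ^ (m + 1)))) := by
        gcongr
        have h3 : m + 1 ≤ 3 ^ m := Nat.lt_pow_self (by norm_num)
        exact_mod_cast h3
    _ = (C * Θ) * (27 * Θ) ^ m := by
        have h27 : (27 : ℝ≥0∞) ^ m = 3 ^ m * 3 ^ m * 3 ^ m := by
          rw [← mul_pow, ← mul_pow]; norm_num
        rw [mul_pow, h27]
        ring

lemma hit_bound (pos : V → G) (q : V → PMF V) {C Θ : ℝ≥0∞} (hs : Spread pos q C Θ)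
    (hΘ : 27 * Θ ≤ 2⁻¹) (D : ℕ) (v : V) :
    (sub q D v).toOuterMeasure {b | hit pos v b} ≤ 2 * (C * Θ) := by
  classical
  have h1 : {b | hit pos v b} = ⋃ m : ℕ, {b | pos v ∈ occ pos m b} := by
    ext b
    simp only [hit, Set.mem_ofPred_eq, Set.mem_iUnion]
  rw [h1]
  refine le_trans ?_ (geom_bound C hΘ)
  refine (MeasureTheory.measure_iUnion_le _).trans (ENNReal.tsum_le_tsum fun m => ?_)
  calc (sub q D v).toOuterMeasure {b | pos v ∈ occ pos m b} ≤ 3 ^ m * (C * Θ ^ (m + 1)) :=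
        sub_occ pos q hs m D v (pos v)
    _ = (C * Θ) * (3 * Θ) ^ m := by ring
    _ ≤ (C * Θ) * (27 * Θ) ^ m := by
        gcongr
        norm_num

/-- Law of two independent samples. -/
noncomputable def pair {X : Type*} (κ : PMF X) : PMF (X × X) :=
  κ.bind fun a => κ.bind fun b => PMF.pure (a, b)

lemma pair_left {X : Type*} (κ : PMF X) (E : X → X → Prop) (ε : ℝ≥0∞)
    (h : ∀ a, κ.toOuterMeasure {b | E a b} ≤ ε) :
    (pair κ).toOuterMeasure {p | E p.1 p.2} ≤ ε := by
  refine bind_le _ _ _ _ fun a _ => ?_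
  rw [bind_pure_outer]
  exact h a

lemma pair_right {X : Type*} (κ : PMF X) (E : X → X → Prop) (ε : ℝ≥0∞)
    (h : ∀ b, κ.toOuterMeasure {a | E a b} ≤ ε) :
    (pair κ).toOuterMeasure {p | E p.1 p.2} ≤ ε := by
  rw [pair, PMF.bind_comm]
  refine bind_le _ _ _ _ fun a _ => ?_
  rw [bind_pure_outer]
  exact h a

lemma pair_prod {X : Type*} (κ : PMF X) (s : Set X) (δ : ℝ≥0∞)
    (h : κ.toOuterMeasure s ≤ δ) :
    (pair κ).toOuterMeasure {p | p.1 ∈ s ∧ p.2 ∈ s} ≤ δ * δ := by
  classical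
  rw [pair, PMF.toOuterMeasure_bind_apply]
  calc ∑' a, κ a * (κ.bind fun b => PMF.pure (a, b)).toOuterMeasure {p | p.1 ∈ s ∧ p.2 ∈ s}
      ≤ ∑' a, s.indicator κ a * δ := by
        refine ENNReal.tsum_le_tsum fun a => ?_
        by_cases ha : a ∈ s
        · rw [Set.indicator_of_mem ha]
          gcongr
          rw [bind_pure_outer]
          refine le_trans (MeasureTheory.measure_mono ?_) h
          intro b hb
          exact hb.2
        · rw [bind_pure_outer]
          have : {b | (a, b) ∈ {p : X × X | p.1 ∈ s ∧ p.2 ∈ s}} = ∅ := by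
            ext b; simp [ha]
          rw [this]
          simp
    _ = κ.toOuterMeasure s * δ := by rw [ENNReal.tsum_mul_right, PMF.toOuterMeasure_apply]
    _ ≤ δ * δ := by gcongr

lemma pair_map {X Y : Type*} (κ : PMF X) (g : X → X → Y) (s : Set Y) :
    (κ.bind fun a => κ.bind fun b => PMF.pure (g a b)).toOuterMeasure s =
      (pair κ).toOuterMeasure {p | g p.1 p.2 ∈ s} := by
  rw [pair, PMF.toOuterMeasure_bind_apply, PMF.toOuterMeasure_bind_apply]
  congr 1; funext a
  rw [bind_pure_outer, bind_pure_outer]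
  rfl

/-- Union bound for events concerning pairs of the three children and single children. -/
lemma triple_pair_le (κ : PMF (TTree V)) (v : V) (s : Set (TTree V))
    (E : TTree V → TTree V → Prop) (H : Set (TTree V)) (ε η : ℝ≥0∞)
    (hE : (pair κ).toOuterMeasure {p | E p.1 p.2} ≤ ε) (hH : κ.toOuterMeasure H ≤ η)
    (h : ∀ a b c, TTree.node v a b c ∈ s →
      (E a b ∨ E a c ∨ E b c) ∨ (a ∈ H ∨ b ∈ H ∨ c ∈ H)) :
    (κ.bind fun a => κ.bind fun b => κ.bind fun c =>
      PMF.pure (TTree.node v a b c)).toOuterMeasure s ≤ (ε + ε + ε) + (η + η + η) := by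
  classical
  have h1 : s ∩ {t | ∃ a b c, t = TTree.node v a b c} ⊆
      ({t | ∃ a b c, t = TTree.node v a b c ∧ E a b} ∪
      {t | ∃ a b c, t = TTree.node v a b c ∧ E a c} ∪
      {t | ∃ a b c, t = TTree.node v a b c ∧ E b c}) ∪
      {t | ∃ a b c, t = TTree.node v a b c ∧ (a ∈ H ∨ b ∈ H ∨ c ∈ H)} := by
    rintro t ⟨ht, a, b, c, rfl⟩
    rcases h a b c ht with (h | h | h) | h
    · exact Or.inl (Or.inl (Or.inl ⟨a, b, c, rfl, h⟩))
    · exact Or.inl (Or.inl (Or.inr ⟨a, b, c, rfl, h⟩))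
    · exact Or.inl (Or.inr ⟨a, b, c, rfl, h⟩)
    · exact Or.inr ⟨a, b, c, rfl, h⟩
  set P := (κ.bind fun a => κ.bind fun b => κ.bind fun c => PMF.pure (TTree.node v a b c))
    with hP
  have h0 : P.toOuterMeasure s ≤ P.toOuterMeasure (s ∩ {t | ∃ a b c, t = TTree.node v a b c}) := by
    apply outer_compl_support
    rintro t ⟨ht, hs⟩
    refine ⟨hs, ?_⟩
    simp only [hP, PMF.mem_support_bind_iff, PMF.mem_support_pure_iff] at ht
    obtain ⟨a, ha, b, hb, c, hc, rfl⟩ := ht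
    exact ⟨a, b, c, rfl⟩
  refine h0.trans ((MeasureTheory.measure_mono h1).trans
    ((MeasureTheory.measure_union_le _ _).trans (add_le_add
      ((MeasureTheory.measure_union_le _ _).trans (add_le_add
        ((MeasureTheory.measure_union_le _ _).trans (add_le_add ?_ ?_)) ?_)) ?_)))
  · have e : P = κ.bind fun c => κ.bind fun a => κ.bind fun b =>
        PMF.pure (TTree.node v a b c) := by
      rw [hP]
      have : (fun a => κ.bind fun b => κ.bind fun c => PMF.pure (TTree.node v a b c)) =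
        fun a => κ.bind fun c => κ.bind fun b => PMF.pure (TTree.node v a b c) := by
        funext a; rw [PMF.bind_comm]
      rw [this, PMF.bind_comm]
    rw [e]
    refine bind_le _ _ _ _ fun c _ => ?_
    rw [pair_map κ (fun a b => TTree.node v a b c)]
    refine le_trans (MeasureTheory.measure_mono ?_) hE
    rintro ⟨a, b⟩ ⟨a', b', c', h, h'⟩
    simp only [TTree.node.injEq] at h
    obtain ⟨_, rfl, rfl, _⟩ := h
    exact h'
  · have e : P = κ.bind fun b => κ.bind fun a => κ.bind fun c =>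
        PMF.pure (TTree.node v a b c) := by
      rw [hP, PMF.bind_comm]
    rw [e]
    refine bind_le _ _ _ _ fun b _ => ?_
    rw [pair_map κ (fun a c => TTree.node v a b c)]
    refine le_trans (MeasureTheory.measure_mono ?_) hE
    rintro ⟨a, c⟩ ⟨a', b', c', h, h'⟩
    simp only [TTree.node.injEq] at h
    obtain ⟨_, rfl, _, rfl⟩ := h
    exact h'
  · refine bind_le _ _ _ _ fun a _ => ?_
    rw [pair_map κ (fun b c => TTree.node v a b c)]
    refine le_trans (MeasureTheory.measure_mono ?_) hE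
    rintro ⟨b, c⟩ ⟨a', b', c', h, h'⟩
    simp only [TTree.node.injEq] at h
    obtain ⟨_, _, rfl, rfl⟩ := h
    exact h'
  · refine (triple_le κ v _ H H H ?_).trans (add_le_add (add_le_add hH hH) hH)
    rintro a b c ⟨a', b', c', h, h'⟩
    simp only [TTree.node.injEq] at h
    obtain ⟨_, rfl, rfl, rfl⟩ := h
    exact h'

/-- The random tree contains a collision free binary tree with probability at least `5/6`. -/
theorem good_bound (pos : V → G) (q : V → PMF V) {C Θ : ℝ≥0∞} (hs : Spread pos q C Θ)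
    (hΘ : 27 * Θ ≤ 2⁻¹) (hC : 2 * (C * Θ) ≤ 108⁻¹) (D : ℕ) (v : V) :
    (rt q D v).toOuterMeasure {t | ¬ Good pos D t} ≤ 6⁻¹ := by
  classical
  induction D generalizing v with
  | zero =>
    have : {t : TTree V | ¬ Good pos 0 t} = ∅ := by ext t; simp [Good]
    rw [this]; simp
  | succ D ih =>
    have hκ : (sub q D v).toOuterMeasure {t | ¬ Good pos D t} ≤ 6⁻¹ :=
      bind_le _ _ _ _ fun u _ => ih u
    rw [rt_succ]
    set κ := sub q D v with hκd
    have hpair : (pair κ).toOuterMeasure {p | (meet pos p.1 p.2 ∨ meet pos p.2 p.1) ∨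
        (¬ Good pos D p.1 ∧ ¬ Good pos D p.2)} ≤ (108⁻¹ + 108⁻¹) + 6⁻¹ * 6⁻¹ := by
      have e : {p : TTree V × TTree V | (meet pos p.1 p.2 ∨ meet pos p.2 p.1) ∨
        (¬ Good pos D p.1 ∧ ¬ Good pos D p.2)} =
        ({p | meet pos p.1 p.2} ∪ {p | meet pos p.2 p.1}) ∪
        {p | p.1 ∈ {t | ¬ Good pos D t} ∧ p.2 ∈ {t | ¬ Good pos D t}} := rfl
      rw [e]
      refine (MeasureTheory.measure_union_le _ _).trans (add_le_add
        ((MeasureTheory.measure_union_le _ _).trans (add_le_add ?_ ?_)) ?_)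
      · exact pair_left κ (fun a b => meet pos a b) _
          fun a => (meet_bound pos q hs hΘ D v a).trans hC
      · exact pair_right κ (fun a b => meet pos b a) _
          fun b => (meet_bound pos q hs hΘ D v b).trans hC
      · exact pair_prod κ _ _ hκ
    have hhit : κ.toOuterMeasure {a | hit pos v a} ≤ 108⁻¹ :=
      (hit_bound pos q hs hΘ D v).trans hC
    refine (triple_pair_le κ v _ (fun a b => (meet pos a b ∨ meet pos b a) ∨
      (¬ Good pos D a ∧ ¬ Good pos D b)) _ _ _ hpair hhit ?_).trans ?_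
    · intro a b c h
      by_contra hcon
      simp only [Set.mem_ofPred_eq] at h hcon
      push Not at hcon
      apply h
      simp only [Good, pairOK]
      obtain ⟨⟨⟨⟨h1, h2⟩, h3⟩, ⟨⟨h4, h5⟩, h6⟩, ⟨h7, h8⟩, h9⟩, h10, h11, h12⟩ := hcon
      by_cases ga : Good pos D a
      · by_cases gb : Good pos D b
        · exact Or.inl ⟨ga, gb, h1, h2, h10, h11⟩
        · exact Or.inr (Or.inl ⟨ga, h9 gb, h4, h5, h10, h12⟩)
      · exact Or.inr (Or.inr ⟨h3 ga, h6 ga, h7, h8, h11, h12⟩)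
    · -- 3 * (2/108 + 1/36) + 3/108 = 1/6
      have h1 : (108⁻¹ : ℝ≥0∞) = ENNReal.ofReal (1 / 108) := by
        rw [ENNReal.ofReal_div_of_pos (by norm_num)]; simp
      have h2 : (6⁻¹ : ℝ≥0∞) = ENNReal.ofReal (1 / 6) := by
        rw [ENNReal.ofReal_div_of_pos (by norm_num)]; simp
      rw [h1, h2]
      rw [← ENNReal.ofReal_mul (by norm_num)]
      repeat rw [← ENNReal.ofReal_add (by norm_num) (by norm_num)]
      apply ENNReal.ofReal_le_ofReal
      norm_num

end Pool.Agent.Helper241Spread
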