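import Pool.Agent.Helper241_Spread.Criterion

set_option autoImplicit false

namespace Pool.Agent.Helper241Spread

open scoped ENNReal Pointwise
open Filter

section Folner

variable {G : Type*} [Group G] [DecidableEq G]

open Classical in
/-- Folner sets inside `A` from the failure of the doubling condition. -/
lemma folner_of_not_doubling (A : Set G)
    (h : ∀ K : Finset G, ∃ X : Finset G, (X : Set G) ⊆ A ∧
      ((K * X).filter (· ∈ A)).card < 2 * X.card)
    (K : Finset G) (n : ℕ) :
    ∃ X : Finset G, X.Nonempty ∧ (X : Set G) ⊆ A ∧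
      (n + 1) * ((insert 1 K * X).filter (· ∈ A)).card ≤ (n + 2) * X.card := by
  classical
  set K' : Finset G := insert 1 K with hK'
  by_contra hcon
  push Not at hcon
  obtain ⟨X, hXA, hX⟩ := h (K' ^ (n + 1))
  have hXne : X.Nonempty := by
    rw [← Finset.card_pos]; omega
  set L : ℕ → Finset G := fun j => Nat.rec X (fun _ Y => (K' * Y).filter (· ∈ A)) j with hL
  have hL0 : L 0 = X := rfl
  have hLs : ∀ j, L (j + 1) = (K' * L j).filter (· ∈ A) := fun j => rfl
  have hLA : ∀ j, ((L j : Finset G) : Set G) ⊆ A := by
    intro j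
    cases j with
    | zero => exact hXA
    | succ j =>
      intro x hx
      rw [hLs] at hx
      simp only [Finset.coe_filter, Set.mem_ofPred_eq] at hx
      exact hx.2
  have hLne : ∀ j, (L j).Nonempty := by
    intro j
    induction j with
    | zero => exact hXne
    | succ j ih =>
      obtain ⟨x, hx⟩ := ih
      refine ⟨x, ?_⟩
      rw [hLs, Finset.mem_filter]
      refine ⟨?_, hLA j hx⟩
      rw [← one_mul x]
      exact Finset.mul_mem_mul (by simp [hK']) hx
  have hgrow : ∀ j, (n + 2) ^ j * X.card ≤ (n + 1) ^ j * (L j).card := by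
    intro j
    induction j with
    | zero => simp [hL0]
    | succ j ih =>
      have h1 := hcon (L j) (hLne j) (hLA j)
      rw [← hLs] at h1
      calc (n + 2) ^ (j + 1) * X.card = (n + 2) * ((n + 2) ^ j * X.card) := by ring
        _ ≤ (n + 2) * ((n + 1) ^ j * (L j).card) := by gcongr
        _ = (n + 1) ^ j * ((n + 2) * (L j).card) := by ring
        _ ≤ (n + 1) ^ j * ((n + 1) * (L (j + 1)).card) := by gcongr
        _ = (n + 1) ^ (j + 1) * (L (j + 1)).card := by ring
  have hsub : ∀ j, L j ⊆ K' ^ j * X := by
    intro j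
    induction j with
    | zero => simp [hL0]
    | succ j ih =>
      rw [hLs]
      refine (Finset.filter_subset _ _).trans ?_
      rw [pow_succ', mul_assoc]
      exact Finset.mul_subset_mul_left ih
  have h2 : (L (n + 1)).card ≤ ((K' ^ (n + 1) * X).filter (· ∈ A)).card := by
    apply Finset.card_le_card
    intro x hx
    rw [Finset.mem_filter]
    exact ⟨hsub _ hx, hLA (n + 1) (Finset.mem_coe.2 hx)⟩
  have h3 : 2 * (n + 1) ^ (n + 1) ≤ (n + 2) ^ (n + 1) := by
    have := one_add_mul_le_pow (R := ℝ) (a := 1 / ((n : ℝ) + 1)) (by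
      have : (0 : ℝ) ≤ 1 / ((n : ℝ) + 1) := by positivity
      linarith) (n + 1)
    have h4 : (1 : ℝ) + ((n + 1 : ℕ) : ℝ) * (1 / ((n : ℝ) + 1)) = 2 := by
      push_cast
      field_simp
      norm_num
    rw [h4] at this
    have h5 : (1 + 1 / ((n : ℝ) + 1)) = ((n : ℝ) + 2) / ((n : ℝ) + 1) := by
      field_simp; ring
    rw [h5, div_pow, le_div_iff₀ (by positivity)] at this
    exact_mod_cast this
  have h4 := hgrow (n + 1)
  have h5 : 2 * (n + 1) ^ (n + 1) * X.card ≤ (n + 1) ^ (n + 1) * (L (n + 1)).card :=
    (Nat.mul_le_mul_right _ h3).trans h4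
  have h6 : 2 * X.card ≤ (L (n + 1)).card := by
    have : 0 < (n + 1) ^ (n + 1) := by positivity
    apply Nat.le_of_mul_le_mul_left _ this
    calc (n + 1) ^ (n + 1) * (2 * X.card) = 2 * (n + 1) ^ (n + 1) * X.card := by ring
      _ ≤ _ := h5
  omega

open Classical in
/-- A finitely additive probability on `A` invariant under partial translations. -/
lemma exists_mean (A : Set G)
    (h : ∀ K : Finset G, ∃ X : Finset G, (X : Set G) ⊆ A ∧
      ((K * X).filter (· ∈ A)).card < 2 * X.card) :
    ∃ m : Set G → ℝ≥0∞, m ∅ = 0 ∧ m A = 1 ∧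
      (∀ B C : Set G, Disjoint B C → m (B ∪ C) = m B + m C) ∧
      (∀ (g : G) (B : Set G), B ⊆ A → (fun x => g * x) '' B ⊆ A →
        m ((fun x => g * x) '' B) = m B) := by
  classical
  choose Φ hne hA hF using folner_of_not_doubling A h
  -- index set
  set Φ' : Finset G × ℕ → Finset G := fun i => Φ i.1 i.2 with hΦ'
  obtain ⟨U, hU⟩ : ∃ U : Ultrafilter (Finset G × ℕ), (U : Filter (Finset G × ℕ)) ≤ atTop :=
    Filter.exists_ultrafilter_le atTop
  set f : Set G → Finset G × ℕ → ℝ≥0∞ := fun B i =>
    (((Φ' i).filter (· ∈ B)).card : ℝ≥0∞) / ((Φ' i).card : ℝ≥0∞) with hf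
  set m : Set G → ℝ≥0∞ := fun B => (U.map (f B)).lim with hm
  have hlim : ∀ B, Tendsto (f B) U (nhds (m B)) := fun B => (U.map (f B)).le_nhds_lim
  have hcard : ∀ i, ((Φ' i).card : ℝ≥0∞) ≠ 0 := by
    intro i
    have := (hne i.1 i.2).card_pos
    simp only [hΦ', ne_eq, Nat.cast_eq_zero]
    omega
  have hcard' : ∀ i, ((Φ' i).card : ℝ≥0∞) ≠ ⊤ := fun i => ENNReal.natCast_ne_top _
  refine ⟨m, ?_, ?_, ?_, ?_⟩
  · have : Tendsto (f ∅) U (nhds 0) := by
      have : f ∅ = fun _ => 0 := by funext i; simp [hf]
      rw [this]; exact tendsto_const_nhds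
    exact tendsto_nhds_unique (hlim ∅) this
  · have : Tendsto (f A) U (nhds 1) := by
      have : f A = fun _ => 1 := by
        funext i
        have e : (Φ' i).filter (· ∈ A) = Φ' i := by
          rw [Finset.filter_eq_self]
          intro x hx
          exact hA i.1 i.2 (Finset.mem_coe.2 hx)
        simp only [hf, e]
        exact ENNReal.div_self (hcard i) (hcard' i)
      rw [this]; exact tendsto_const_nhds
    exact tendsto_nhds_unique (hlim A) this
  · intro B C hBC
    have : Tendsto (f (B ∪ C)) U (nhds (m B + m C)) := by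
      have : f (B ∪ C) = fun i => f B i + f C i := by
        funext i
        simp only [hf]
        rw [← ENNReal.add_div, ← Nat.cast_add, ← Finset.card_union_of_disjoint]
        · congr 3
          ext x
          simp only [Finset.mem_filter, Finset.mem_union, Set.mem_union]
          tauto
        · rw [Finset.disjoint_left]
          intro x hx hx'
          rw [Finset.mem_filter] at hx hx'
          exact Set.disjoint_left.1 hBC hx.2 hx'.2
      rw [this]
      exact (hlim B).add (hlim C)
    exact tendsto_nhds_unique (hlim _) this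
  · -- one inequality suffices
    have key : ∀ (g : G) (B : Set G), B ⊆ A → (fun x => g * x) '' B ⊆ A →
        m B ≤ m ((fun x => g * x) '' B) := by
      intro g B hB hgB
      apply ENNReal.le_of_forall_pos_le_add
      intro ε hε _
      have hev : ∀ᶠ i in (U : Filter (Finset G × ℕ)),
          f B i ≤ f ((fun x => g * x) '' B) i + ε := by
        obtain ⟨n, hn⟩ := exists_nat_one_div_lt (show (0 : ℝ) < ε by exact_mod_cast hε)
        have h1 : ∀ᶠ i in (atTop : Filter (Finset G × ℕ)), (({g}, n) : Finset G × ℕ) ≤ i :=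
          eventually_ge_atTop _
        filter_upwards [hU h1] with i hi
        have hg : g ∈ i.1 := by
          have := hi.1
          exact this (by simp)
        have hni : n ≤ i.2 := hi.2
        have h2 := hF i.1 i.2
        have hsub1 : Φ' i ⊆ (insert 1 i.1 * Φ i.1 i.2).filter (· ∈ A) := by
          intro x hx
          rw [Finset.mem_filter]
          refine ⟨?_, hA i.1 i.2 (Finset.mem_coe.2 hx)⟩
          rw [← one_mul x]
          exact Finset.mul_mem_mul (by simp) hx
        have hsub2 : ((Φ' i).filter (· ∈ B)).image (fun x => g * x) ⊆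
            ((Φ' i).filter (· ∈ (fun x => g * x) '' B)) ∪
            ((insert 1 i.1 * Φ i.1 i.2).filter (· ∈ A) \ Φ' i) := by
          intro y hy
          rw [Finset.mem_image] at hy
          obtain ⟨x, hx, rfl⟩ := hy
          rw [Finset.mem_filter] at hx
          rw [Finset.mem_union]
          by_cases hgx : g * x ∈ Φ' i
          · left
            rw [Finset.mem_filter]
            exact ⟨hgx, x, hx.2, rfl⟩
          · right
            rw [Finset.mem_sdiff, Finset.mem_filter]
            exact ⟨⟨Finset.mul_mem_mul (by simp [hg]) hx.1, hgB ⟨x, hx.2, rfl⟩⟩, hgx⟩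
        have h3 : ((Φ' i).filter (· ∈ B)).card + (Φ' i).card ≤
            ((Φ' i).filter (· ∈ (fun x => g * x) '' B)).card +
            ((insert 1 i.1 * Φ i.1 i.2).filter (· ∈ A)).card := by
          have e1 := Finset.card_le_card hsub2
          rw [Finset.card_image_of_injective _ (mul_right_injective g)] at e1
          have e2 := Finset.card_union_le ((Φ' i).filter (· ∈ (fun x => g * x) '' B))
            ((insert 1 i.1 * Φ i.1 i.2).filter (· ∈ A) \ Φ' i)
          have e3 := Finset.card_sdiff_add_card_eq_card hsub1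
          omega
        -- real estimate
        have hpos : (0 : ℝ) < (Φ' i).card := by exact_mod_cast (hne i.1 i.2).card_pos
        have h4 : (((Φ' i).filter (· ∈ B)).card : ℝ) ≤
            ((Φ' i).filter (· ∈ (fun x => g * x) '' B)).card + ε * (Φ' i).card := by
          have h5 : ((i.2 : ℝ) + 1) * ((insert 1 i.1 * Φ i.1 i.2).filter (· ∈ A)).card ≤
              ((i.2 : ℝ) + 2) * (Φ' i).card := by exact_mod_cast h2
          have h6 : (((Φ' i).filter (· ∈ B)).card : ℝ) + (Φ' i).card ≤
            ((Φ' i).filter (· ∈ (fun x => g * x) '' B)).card +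
            ((insert 1 i.1 * Φ i.1 i.2).filter (· ∈ A)).card := by exact_mod_cast h3
          have h7 : (1 : ℝ) / ((i.2 : ℝ) + 1) ≤ ε := by
            refine le_trans ?_ hn.le
            gcongr
          have h8 : ((((insert 1 i.1 * Φ i.1 i.2).filter (· ∈ A)).card : ℝ)) ≤
              (Φ' i).card + (1 / ((i.2 : ℝ) + 1)) * (Φ' i).card := by
            have hp : (0 : ℝ) < (i.2 : ℝ) + 1 := by positivity
            have : ((((insert 1 i.1 * Φ i.1 i.2).filter (· ∈ A)).card : ℝ)) ≤
                ((i.2 : ℝ) + 2) * (Φ' i).card / ((i.2 : ℝ) + 1) := by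
              rw [le_div_iff₀ hp]; linarith
            refine this.trans (le_of_eq ?_)
            field_simp
            ring
          have h9 : (1 / ((i.2 : ℝ) + 1)) * (Φ' i).card ≤ ε * (Φ' i).card := by gcongr
          linarith
        simp only [hf]
        rw [ENNReal.div_le_iff (hcard i) (hcard' i), add_mul, ENNReal.div_mul_cancel (hcard i)
          (hcard' i)]
        have h10 : (((Φ' i).filter (· ∈ B)).card : NNReal) ≤
            ((Φ' i).filter (· ∈ (fun x => g * x) '' B)).card + ε * (Φ' i).card := by
          rw [← NNReal.coe_le_coe]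
          push_cast
          exact h4
        exact_mod_cast h10
      exact le_of_tendsto_of_tendsto (hlim B)
        ((hlim ((fun x => g * x) '' B)).add tendsto_const_nhds) hev
    intro g B hB hgB
    apply le_antisymm _ (key g B hB hgB)
    have e : (fun x => g⁻¹ * x) '' ((fun x => g * x) '' B) = B := by
      rw [Set.image_image]; simp
    have := key g⁻¹ ((fun x => g * x) '' B) hgB (by rw [e]; exact hB)
    rwa [e] at this

end Folner

end Pool.Agent.Helper241Spread
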