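import Pool.Agent.Helper241_Spread.Bound

set_option autoImplicit false

namespace Pool.Agent.Helper241Spread

open scoped ENNReal Pointwise
open TTree

variable {V : Type*} {G : Type*}

lemma law_add (step : V → PMF V) (a b : ℕ) (u : V) :
    law step (a + b) u = (law step a u).bind (law step b) := by
  induction a generalizing u with
  | zero => simp [law]
  | succ a ih =>
    rw [show a + 1 + b = (a + b) + 1 by ring, law, law, PMF.bind_bind]
    congr 1; funext v; exact ih v

lemma law_law (step : V → PMF V) (N n : ℕ) (u : V) :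
    law (law step N) n u = law step (N * n) u := by
  induction n generalizing u with
  | zero => simp [law]
  | succ n ih =>
    rw [law, show N * (n + 1) = N + N * n by ring, law_add]
    congr 1; funext v; exact ih v

lemma law_support [Group G] [DecidableEq G] (pos : V → G) (step : V → PMF V) (K : Finset G)
    (hK : ∀ u, ∀ v ∈ (step u).support, ∃ k ∈ K, pos v = k * pos u) (n : ℕ) (u v : V)
    (hv : v ∈ (law step n u).support) : ∃ k ∈ K ^ n, pos v = k * pos u := by
  induction n generalizing u with
  | zero =>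
    simp only [law, PMF.mem_support_pure_iff] at hv
    exact ⟨1, by simp, by simp [hv]⟩
  | succ n ih =>
    simp only [law, PMF.mem_support_bind_iff] at hv
    obtain ⟨w, hw, hv⟩ := hv
    obtain ⟨k, hk, h1⟩ := hK u w hw
    obtain ⟨k', hk', h2⟩ := ih w hv
    refine ⟨k' * k, ?_, by rw [h2, h1, mul_assoc]⟩
    rw [pow_succ]
    exact Finset.mul_mem_mul hk' hk

/-- **Spreading criterion.** A process with bounded steps whose positions spread exponentially,
uniformly over all states, obstructs supramenability. -/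
theorem not_supramenable_of_spread [Group G] [Nonempty V] (pos : V → G) (step : V → PMF V)
    (K : Finset G) (hK : ∀ u, ∀ v ∈ (step u).support, ∃ k ∈ K, pos v = k * pos u)
    (C θ : NNReal) (hθ : θ < 1)
    (hs : ∀ (n : ℕ) (u : V) (y : G), ((law step n u).map pos) y ≤ C * (θ : ℝ≥0∞) ^ n) :
    ¬ Supramenable G := by
  classical
  -- choose `N`
  obtain ⟨N, hN⟩ : ∃ N : ℕ, (θ : ℝ) ^ N < min (1 / 54) (1 / (216 * ((C : ℝ) + 1))) :=
    exists_pow_lt_of_lt_one (by positivity) (by exact_mod_cast hθ)
  set Θ : ℝ≥0∞ := (θ : ℝ≥0∞) ^ N with hΘd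
  have hΘr : Θ = ENNReal.ofReal ((θ : ℝ) ^ N) := by
    rw [hΘd, ENNReal.ofReal_pow (by positivity)]
    simp
  have h54 : (θ : ℝ) ^ N ≤ 1 / 54 := (hN.trans_le (min_le_left _ _)).le
  have h216 : (θ : ℝ) ^ N ≤ 1 / (216 * ((C : ℝ) + 1)) := (hN.trans_le (min_le_right _ _)).le
  have hΘ : 27 * Θ ≤ 2⁻¹ := by
    have h1 : (27 : ℝ≥0∞) = ENNReal.ofReal 27 := by simp
    have h2 : (2⁻¹ : ℝ≥0∞) = ENNReal.ofReal (1 / 2) := by
      rw [ENNReal.ofReal_div_of_pos (by norm_num)]; simp
    rw [hΘr, h1, h2, ← ENNReal.ofReal_mul (by norm_num)]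
    apply ENNReal.ofReal_le_ofReal
    linarith
  have hC : 2 * ((C : ℝ≥0∞) * Θ) ≤ 108⁻¹ := by
    have h1 : (2 : ℝ≥0∞) = ENNReal.ofReal 2 := by simp
    have h2 : (108⁻¹ : ℝ≥0∞) = ENNReal.ofReal (1 / 108) := by
      rw [ENNReal.ofReal_div_of_pos (by norm_num)]; simp
    have h3 : (C : ℝ≥0∞) = ENNReal.ofReal (C : ℝ) := by simp
    rw [hΘr, h1, h2, h3, ← ENNReal.ofReal_mul (by positivity), ← ENNReal.ofReal_mul (by norm_num)]
    apply ENNReal.ofReal_le_ofReal
    have hC0 : (0 : ℝ) ≤ C := C.2
    calc 2 * ((C : ℝ) * (θ : ℝ) ^ N) ≤ 2 * (C * (1 / (216 * ((C : ℝ) + 1)))) := by gcongr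
      _ = (C / ((C : ℝ) + 1)) * (1 / 108) := by field_simp; ring
      _ ≤ 1 * (1 / 108) := by
          gcongr
          rw [div_le_one (by positivity)]
          linarith
      _ = 1 / 108 := by norm_num
  have hspread : Spread pos (law step N) C Θ := by
    intro n u y
    rw [law_law]
    refine (hs _ _ _).trans ?_
    rw [hΘd, ← pow_mul]
  -- trees of every depth
  have hD : ∀ D : ℕ, ∃ τ : List Bool → G, τ [] = 1 ∧
      (∀ w w', w.length ≤ D → w'.length ≤ D → τ w = τ w' → w = w') ∧
      (∀ b w, w.length < D → ∃ k ∈ K ^ N, τ (b :: w) = k * τ w) := by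
    intro D
    obtain ⟨u⟩ := ‹Nonempty V›
    have hb := good_bound pos (law step N) hspread hΘ hC D u
    have : ∃ t ∈ (rt (law step N) D u).support, Good pos D t := by
      by_contra hcon
      push Not at hcon
      have h1 : (rt (law step N) D u).toOuterMeasure Set.univ ≤
          (rt (law step N) D u).toOuterMeasure {t | ¬ Good pos D t} := by
        apply outer_compl_support
        rintro t ⟨ht, _⟩
        exact hcon t ht
      have h2 : (rt (law step N) D u).toOuterMeasure Set.univ = 1 := by
        rw [PMF.toOuterMeasure_apply]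
        simp
      rw [h2] at h1
      have h3 := h1.trans hb
      have : (6 : ℝ≥0∞) ≤ 1 := by
        rw [ENNReal.le_inv_iff_mul_le] at h3
        simp at h3
      norm_num at this
    obtain ⟨t, ht, hg⟩ := this
    have hv := valid_of_mem (law step N) (fun u v => ∃ k ∈ K ^ N, pos v = k * pos u)
      (fun u v hv => law_support pos step K hK N u v hv) D u t ht
    obtain ⟨σ, s0, s1, s2, s3⟩ := exists_binary pos _ D t hg hv
    refine ⟨fun w => pos (σ w.reverse) * (pos (σ []))⁻¹, by simp, ?_, ?_⟩
    · intro w w' hw hw' he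
      have := s1 w.reverse w'.reverse (by simpa using hw) (by simpa using hw')
        (mul_right_cancel he)
      simpa using this
    · intro b w hw
      obtain ⟨k, hk, h⟩ := s2 b w.reverse (by simpa using hw)
      refine ⟨k, hk, ?_⟩
      simp only [List.reverse_cons]
      rw [h, mul_assoc]
  obtain ⟨τ, h1, h2⟩ := exists_tree_of_depth (K ^ N) hD
  exact not_supramenable_of_tree (K ^ N) τ h1 h2

end Pool.Agent.Helper241Spread
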