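import Pool.Agent.Helper241_Spread.Process

set_option autoImplicit false

namespace Pool.Agent.Helper241Spread

open scoped ENNReal Pointwise
open Filter

/-- **Maps with subexponential fibres.** If `f : G → Q` moves boundedly under left translations and
its fibres grow subexponentially, then supramenability of `Q` implies that of `G`. -/
theorem supramenable_of_fibres {G Q : Type*} [Group G] [Group Q] (f : G → Q)
    (hLip : ∀ k : G, ∃ K' : Finset Q, ∀ x : G, ∃ k' ∈ K', f (k * x) = k' * f x)
    (hfib : ∀ K : Set G, K.Finite → ∀ b : ℝ, 1 < b → ∃ C : ℝ, ∀ (n : ℕ) (x : G) (y : Q),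
      (Set.ncard {z : G | z * x⁻¹ ∈ K ^ n ∧ f z = y} : ℝ) ≤ C * b ^ n)
    (hQ : Supramenable Q) : Supramenable G := by
  classical
  by_contra hG
  obtain ⟨pos, step, K, C, θ, hθ, hK, hs⟩ := exists_process hG
  -- the new step set
  choose K' hK' using hLip
  -- choose `b`
  obtain ⟨b, hb1, hbθ⟩ : ∃ b : ℝ, 1 < b ∧ b * (θ : ℝ) < 1 := by
    have hθ' : (θ : ℝ) < 1 := by exact_mod_cast hθ
    rcases eq_or_lt_of_le (show (0 : ℝ) ≤ θ from θ.2) with h0 | h0
    · exact ⟨2, by norm_num, by rw [← h0]; norm_num⟩
    · have h1 : 1 < 1 / (θ : ℝ) := by rw [lt_div_iff₀ h0]; linarith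
      obtain ⟨b, hb, hb'⟩ := exists_between h1
      exact ⟨b, hb, by rwa [lt_div_iff₀ h0] at hb'⟩
  obtain ⟨C₁, hC₁⟩ := hfib (K : Set G) K.finite_toSet b hb1
  set C₂ : NNReal := ⟨max C₁ 0, le_max_right _ _⟩ with hC₂
  set b' : NNReal := ⟨b, by linarith⟩ with hb'
  refine not_supramenable_of_spread (fun w => f (pos w)) step (K.biUnion K') ?_ (C₂ * C) (b' * θ)
    ?_ ?_ hQ
  · intro u v hv
    obtain ⟨k, hk, h⟩ := hK u v hv
    obtain ⟨k', hk', h'⟩ := hK' k (pos u)
    exact ⟨k', Finset.mem_biUnion.2 ⟨k, hk, hk'⟩, by rw [h, h']⟩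
  · rw [← NNReal.coe_lt_coe]
    push_cast
    exact hbθ
  · intro n u y
    have e : (law step n u).map (fun w => f (pos w)) = ((law step n u).map pos).map f := by
      rw [PMF.map_comp]; rfl
    rw [e, PMF.map_apply]
    -- the finite set of relevant elements
    set F : Finset G := (K ^ n * {pos u}).filter (fun z => f z = y) with hF
    have hsupp : ∀ z, z ∉ F → (if y = f z then ((law step n u).map pos) z else 0) = 0 := by
      intro z hz
      by_cases hy : y = f z
      · rw [if_pos hy]
        by_contra hne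
        have hz' : z ∈ ((law step n u).map pos).support := by
          rw [PMF.mem_support_iff]; exact hne
        rw [PMF.mem_support_map_iff] at hz'
        obtain ⟨w, hw, rfl⟩ := hz'
        obtain ⟨k, hk, h⟩ := law_support pos step K hK n u w hw
        apply hz
        rw [hF, Finset.mem_filter]
        exact ⟨by rw [h]; exact Finset.mul_mem_mul hk (by simp), hy.symm⟩
      · rw [if_neg hy]
    rw [tsum_eq_sum (s := F) (fun z hz => hsupp z hz)]
    calc ∑ z ∈ F, (if y = f z then ((law step n u).map pos) z else 0)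
        ≤ ∑ z ∈ F, (C : ℝ≥0∞) * (θ : ℝ≥0∞) ^ n := by
          apply Finset.sum_le_sum
          intro z _
          split_ifs
          · exact hs n u z
          · exact bot_le
      _ = (F.card : ℝ≥0∞) * ((C : ℝ≥0∞) * (θ : ℝ≥0∞) ^ n) := by
          rw [Finset.sum_const, nsmul_eq_mul]
      _ ≤ ((C₂ * b' ^ n : NNReal) : ℝ≥0∞) * ((C : ℝ≥0∞) * (θ : ℝ≥0∞) ^ n) := by
          gcongr
          have h1 : (F : Set G) = {z : G | z * (pos u)⁻¹ ∈ (K : Set G) ^ n ∧ f z = y} := by
            ext z
            rw [hF]
            simp only [Finset.coe_filter, Set.mem_ofPred_eq, Finset.mem_mul, Finset.mem_singleton]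
            constructor
            · rintro ⟨⟨k, hk, x, rfl, rfl⟩, h2⟩
              refine ⟨?_, h2⟩
              rw [mul_inv_cancel_right]
              rw [← Finset.coe_pow]
              exact Finset.mem_coe.2 hk
            · rintro ⟨hk, h2⟩
              rw [← Finset.coe_pow, Finset.mem_coe] at hk
              exact ⟨⟨_, hk, _, rfl, by simp⟩, h2⟩
          have h2 := hC₁ n (pos u) y
          rw [← h1, Set.ncard_coe_finset] at h2
          have h3 : ((F.card : NNReal)) ≤ C₂ * b' ^ n := by
            rw [← NNReal.coe_le_coe]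
            push_cast
            refine h2.trans ?_
            have hbp : (0 : ℝ) ≤ b ^ n := by positivity
            exact mul_le_mul_of_nonneg_right (le_max_left _ _) hbp
          exact_mod_cast h3
      _ = ((C₂ * C : NNReal) : ℝ≥0∞) * ((b' * θ : NNReal) : ℝ≥0∞) ^ n := by
          push_cast
          rw [mul_pow]
          ring

end Pool.Agent.Helper241Spread
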