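import Pool.Agent.Helper241_Spread.Tarski

set_option autoImplicit false

namespace Pool.Agent.Helper241Spread

open scoped ENNReal Pointwise
open Filter

variable {X : Type*}

/-- positions along the binary tree of `f` -/
def bpos (f : X × Bool → X) (x0 : X) : List Bool → X
  | [] => x0
  | b :: w => f (bpos f x0 w, b)

/-- one random step on binary words -/
noncomputable def bstep (w : List Bool) : PMF (List Bool) :=
  (PMF.uniformOfFintype Bool).bind fun b => PMF.pure (b :: w)

lemma law_one {V : Type*} (step : V → PMF V) (u : V) : law step 1 u = step u := by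
  simp [law]

open Classical in
lemma bstep_map (f : X × Bool → X) (hf : Function.Injective f) (x0 : X) (u : List Bool)
    (a : X) (b : Bool) :
    ((bstep u).map (bpos f x0)) (f (a, b)) ≤ if bpos f x0 u = a then (2⁻¹ : ℝ≥0∞) else 0 := by
  classical
  rw [bstep, PMF.map_bind, PMF.bind_apply]
  simp only [PMF.pure_map, PMF.pure_apply, bpos, PMF.uniformOfFintype_apply, Fintype.card_bool,
    Nat.cast_ofNat]
  rw [tsum_fintype, Fintype.sum_bool]
  by_cases h : bpos f x0 u = a
  · rw [if_pos h, h]
    cases b
    · have h1 : f (a, false) = f (a, true) ↔ False := by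
        rw [hf.eq_iff]; simp
      simp [h1]
    · have h1 : f (a, true) = f (a, false) ↔ False := by
        rw [hf.eq_iff]; simp
      simp [h1]
  · rw [if_neg h]
    have h1 : ∀ c, (f (a, b) = f (bpos f x0 u, c)) ↔ False := by
      intro c
      rw [hf.eq_iff]
      simp only [Prod.mk.injEq, iff_false, not_and]
      intro h2; exact absurd h2.symm h
    simp [h1]

lemma bstep_map' (f : X × Bool → X) (x0 : X) (u : List Bool)
    (a : X) (ha : ∀ p, f p ≠ a) :
    ((bstep u).map (bpos f x0)) a = 0 := by
  classical
  rw [bstep, PMF.map_bind, PMF.bind_apply]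
  simp only [PMF.pure_map, PMF.pure_apply, bpos]
  have h1 : ∀ c, (a = f (bpos f x0 u, c)) ↔ False := by
    intro c
    simp only [iff_false]
    intro h; exact ha _ h.symm
  simp [h1]

lemma blaw_bound (f : X × Bool → X) (hf : Function.Injective f) (x0 : X) (n : ℕ)
    (w : List Bool) (a : X) :
    ((law bstep n w).map (bpos f x0)) a ≤ (2⁻¹ : ℝ≥0∞) ^ n := by
  classical
  induction n generalizing a with
  | zero => rw [pow_zero]; exact PMF.coe_le_one _ _
  | succ n ih =>
    rw [law_add, PMF.map_bind, PMF.bind_apply]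
    by_cases ha : ∃ p, f p = a
    · obtain ⟨⟨a', b'⟩, rfl⟩ := ha
      calc ∑' u, (law bstep n w) u * ((law bstep 1 u).map (bpos f x0)) (f (a', b'))
          ≤ ∑' u, (if a' = bpos f x0 u then (law bstep n w) u else 0) * 2⁻¹ := by
            refine ENNReal.tsum_le_tsum fun u => ?_
            rw [law_one]
            have := bstep_map f hf x0 u a' b'
            by_cases h : bpos f x0 u = a'
            · rw [if_pos h] at this
              rw [if_pos h.symm]
              gcongr
            · rw [if_neg h] at this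
              rw [if_neg (fun h' => h h'.symm)]
              simp [le_antisymm this bot_le]
        _ = ((law bstep n w).map (bpos f x0)) a' * 2⁻¹ := by
            rw [ENNReal.tsum_mul_right, PMF.map_apply]
        _ ≤ (2⁻¹) ^ n * 2⁻¹ := by gcongr; exact ih a'
        _ = (2⁻¹) ^ (n + 1) := by rw [pow_succ]
    · push Not at ha
      have : ∀ u, (law bstep n w) u * ((law bstep 1 u).map (bpos f x0)) a = 0 := by
        intro u
        rw [law_one, bstep_map' f x0 u a ha, mul_zero]
      rw [tsum_congr this, tsum_zero]; exact bot_le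

/-- From the failure of supramenability to a uniformly spreading process. -/
theorem exists_process {G : Type*} [Group G] (h : ¬ Supramenable G) :
    ∃ (pos : List Bool → G) (step : List Bool → PMF (List Bool)) (K : Finset G) (C θ : NNReal),
      θ < 1 ∧ (∀ u, ∀ v ∈ (step u).support, ∃ k ∈ K, pos v = k * pos u) ∧
      ∀ (n : ℕ) (u : List Bool) (y : G), ((law step n u).map pos) y ≤ C * (θ : ℝ≥0∞) ^ n := by
  classical
  unfold Supramenable at h
  push Not at h
  obtain ⟨A, ⟨a0, ha0⟩, hA⟩ := h
  have hno : ¬ ∃ μ : Set G → ENNReal,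
      μ ∅ = 0 ∧
      (∀ B C : Set G, Disjoint B C → μ (B ∪ C) = μ B + μ C) ∧
      (∀ (g : G) (B : Set G), μ ((fun x => g * x) ⁻¹' B) = μ B) ∧
      μ A = 1 := by
    rintro ⟨μ, h1, h2, h3, h4⟩
    exact hA μ h1 h2 h3 h4
  obtain ⟨K, hK⟩ := doubling_of_no_measure A hno
  obtain ⟨f, hf, hfK⟩ := exists_doubling_map A K (by
    intro X hX
    refine (hK X hX).trans (le_of_eq ?_)
    congr 1
    ext x
    simp)
  refine ⟨fun w => ((bpos f (⟨a0, ha0⟩ : A) w : A) : G), bstep, K, 1, 2⁻¹, ?_, ?_, ?_⟩
  · exact inv_lt_one_of_one_lt₀ (by norm_num)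
  · intro u v hv
    simp only [bstep, PMF.mem_support_bind_iff, PMF.mem_support_pure_iff] at hv
    obtain ⟨b, _, rfl⟩ := hv
    exact hfK _ _
  · intro n u y
    have e : (law bstep n u).map (fun w => ((bpos f (⟨a0, ha0⟩ : A) w : A) : G)) =
        ((law bstep n u).map (bpos f ⟨a0, ha0⟩)).map (fun a : A => (a : G)) := by
      rw [PMF.map_comp]; rfl
    rw [e, PMF.map_apply]
    have h2 : ((2⁻¹ : NNReal) : ℝ≥0∞) = 2⁻¹ := by
      rw [ENNReal.coe_inv (by norm_num)]; simp
    rw [h2, ENNReal.coe_one, one_mul]
    by_cases hy : y ∈ A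
    · rw [tsum_eq_single (⟨y, hy⟩ : A)]
      · simp only [if_true]
        exact blaw_bound f hf _ n u _
      · intro a ha
        rw [if_neg]
        intro h; apply ha; ext; exact h.symm
    · have : ∀ a : A, (if y = (a : G) then ((law bstep n u).map (bpos f ⟨a0, ha0⟩)) a else 0) = 0 := by
        intro a
        rw [if_neg]
        intro h; exact hy (h ▸ a.2)
      simp only [this, tsum_zero]
      exact bot_le

end Pool.Agent.Helper241Spread
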