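import Pool.Agent.Helper241_Spread.Fibre

set_option autoImplicit false

namespace Pool.Agent.Helper241Spread

open scoped ENNReal Pointwise
open Filter

/-- the ball of radius `n` for the generating set `S` -/
def ball {G : Type*} [Group G] (S : Finset G) (n : ℕ) : Set G :=
  {g : G | ∃ l : List G, l.length ≤ n ∧ (∀ x ∈ l, x ∈ S ∨ x⁻¹ ∈ S) ∧ l.prod = g}

/-- Exponentially bounded groups, as in the problem file. -/
def ExpBounded (G : Type*) [Group G] : Prop :=
  ∀ S : Finset G, Tendsto (fun n : ℕ => ((Nat.card (ball S n) : ℕ) : ℝ) ^ (1 / (n : ℝ)))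
    atTop (nhds 1)

variable {G : Type*} [Group G]

lemma pow_subset_ball (S : Finset G) (n : ℕ) : (S : Set G) ^ n ⊆ ball S n := by
  classical
  intro g hg
  have : ∀ n : ℕ, ∀ g ∈ (S : Set G) ^ n,
      ∃ l : List G, l.length = n ∧ (∀ x ∈ l, x ∈ S) ∧ l.prod = g := by
    intro n
    induction n with
    | zero => intro g hg; exact ⟨[], rfl, by simp, by simpa using hg.symm⟩
    | succ n ih =>
      intro g hg
      rw [pow_succ', Set.mem_mul] at hg
      obtain ⟨a, ha, b, hb, rfl⟩ := hg
      obtain ⟨l, h1, h2, h3⟩ := ih b hb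
      refine ⟨a :: l, by simp [h1], ?_, by simp [h3]⟩
      intro x hx
      rcases List.mem_cons.1 hx with rfl | hx
      · simpa using ha
      · exact h2 x hx
  obtain ⟨l, h1, h2, h3⟩ := this n g hg
  exact ⟨l, h1.le, fun x hx => Or.inl (h2 x hx), h3⟩

lemma finite_ball (S : Finset G) (n : ℕ) : (ball S n).Finite := by
  classical
  set T : Finset G := S ∪ S.image (·⁻¹) with hT
  have : ball S n ⊆ ⋃ m ∈ Finset.range (n + 1), (((T ^ m : Finset G)) : Set G) := by
    rintro g ⟨l, h1, h2, rfl⟩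
    have key : ∀ l : List G, (∀ x ∈ l, x ∈ S ∨ x⁻¹ ∈ S) → l.prod ∈ T ^ l.length := by
      intro l
      induction l with
      | nil => intro _; simp
      | cons a l ih =>
        intro h
        rw [List.prod_cons, List.length_cons, pow_succ']
        refine Finset.mul_mem_mul ?_ (ih fun x hx => h x (List.mem_cons_of_mem _ hx))
        rcases h a (by simp) with h | h
        · simp [hT, h]
        · rw [hT, Finset.mem_union, Finset.mem_image]
          exact Or.inr ⟨a⁻¹, h, inv_inv a⟩
    simp only [Set.mem_iUnion, Finset.mem_coe, Finset.mem_range, exists_prop]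
    exact ⟨l.length, by omega, key l h2⟩
  refine Set.Finite.subset ?_ this
  exact Set.Finite.biUnion (Finset.finite_toSet _) fun m _ => Finset.finite_toSet _

lemma bound_of_expBounded (hG : ExpBounded G) (S : Finset G) (b : ℝ) (hb : 1 < b) :
    ∃ C : ℝ, 0 ≤ C ∧ ∀ n : ℕ, ((Nat.card (ball S n) : ℕ) : ℝ) ≤ C * b ^ n := by
  have h := hG S
  have h1 : ∀ᶠ n : ℕ in atTop, ((Nat.card (ball S n) : ℕ) : ℝ) ^ (1 / (n : ℝ)) < b :=
    h.eventually (gt_mem_nhds hb)
  obtain ⟨n0, hn0⟩ := (h1.and (eventually_gt_atTop 0)).exists_forall_of_atTop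
  refine ⟨1 + ∑ m ∈ Finset.range n0, ((Nat.card (ball S m) : ℕ) : ℝ), by positivity, ?_⟩
  intro n
  have hbn : 1 ≤ b ^ n := one_le_pow₀ hb.le
  rcases lt_or_ge n n0 with hn | hn
  · have h2 : ((Nat.card (ball S n) : ℕ) : ℝ) ≤
        ∑ m ∈ Finset.range n0, ((Nat.card (ball S m) : ℕ) : ℝ) :=
      Finset.single_le_sum (f := fun m => ((Nat.card (ball S m) : ℕ) : ℝ))
        (fun _ _ => by positivity) (Finset.mem_range.2 hn)
    have h3 : 0 ≤ ∑ m ∈ Finset.range n0, ((Nat.card (ball S m) : ℕ) : ℝ) := by positivity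
    nlinarith
  · obtain ⟨h2, h3⟩ := hn0 n hn
    have hn' : (n : ℝ) ≠ 0 := by positivity
    have h4 : ((Nat.card (ball S n) : ℕ) : ℝ) ≤ b ^ n := by
      have h5 : (((Nat.card (ball S n) : ℕ) : ℝ) ^ (1 / (n : ℝ))) ^ n ≤ b ^ n := by
        gcongr
      rwa [one_div, Real.rpow_inv_natCast_pow (by positivity) (by omega)] at h5
    have h6 : 0 ≤ ∑ m ∈ Finset.range n0, ((Nat.card (ball S m) : ℕ) : ℝ) := by positivity
    nlinarith

/-- The product of a supramenable group and an exponentially bounded group is supramenable. -/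
theorem supramenable_prod {H : Type*} [Group H] (hG : Supramenable G) (hH : ExpBounded H) :
    Supramenable (G × H) := by
  classical
  refine supramenable_of_fibres (fun p : G × H => p.1) ?_ ?_ hG
  · intro k
    exact ⟨{k.1}, fun x => ⟨k.1, by simp, rfl⟩⟩
  · intro K hK b hb
    set S : Finset H := (hK.image Prod.snd).toFinset with hS
    obtain ⟨C, hC0, hC⟩ := bound_of_expBounded hH S b hb
    refine ⟨C, fun n x y => ?_⟩
    refine le_trans ?_ (hC n)
    have hsub : ∀ p : G × H, p * x⁻¹ ∈ K ^ n → p.2 * x.2⁻¹ ∈ ball S n := by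
      intro p hp
      apply pow_subset_ball
      have : ∀ n : ℕ, ∀ q ∈ K ^ n, q.2 ∈ (S : Set H) ^ n := by
        intro n
        induction n with
        | zero => intro q hq; rw [pow_zero, Set.mem_one] at hq; simp [hq]
        | succ n ih =>
          intro q hq
          rw [pow_succ', Set.mem_mul] at hq
          obtain ⟨a, ha, c, hc, rfl⟩ := hq
          rw [pow_succ', Set.mem_mul]
          refine ⟨a.2, ?_, c.2, ih c hc, rfl⟩
          simp only [hS, Set.Finite.coe_toFinset]
          exact ⟨a, ha, rfl⟩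
      exact this n _ hp
    have h1 : Set.ncard {z : G × H | z * x⁻¹ ∈ K ^ n ∧ z.1 = y} ≤ Set.ncard (ball S n) := by
      refine Set.ncard_le_ncard_of_injOn (fun z => z.2 * x.2⁻¹) ?_ ?_ (finite_ball S n)
      · intro z hz; exact hsub z hz.1
      · intro z hz z' hz' he
        have h2 : z.2 = z'.2 := mul_right_cancel he
        exact Prod.ext (hz.2.trans hz'.2.symm) h2
    have h3 : Set.ncard {z : G × H | z * x⁻¹ ∈ K ^ n ∧ z.1 = y} ≤ Nat.card (ball S n) := h1
    exact_mod_cast h3

end Pool.Agent.Helper241Spread
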