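import Pool.Agent.Helper241_Spread.Basic

set_option autoImplicit false

namespace Pool.Agent.Helper241Spread

open scoped ENNReal

/-- Ternary trees with labelled nodes. -/
inductive TTree (V : Type*) : Type _
  | leaf (v : V) : TTree V
  | node (v : V) (a b c : TTree V) : TTree V

/-- `n`-step law of the Markov process with one-step kernel `step`. -/
noncomputable def law {V : Type*} (step : V → PMF V) : ℕ → V → PMF V
  | 0, u => PMF.pure u
  | n + 1, u => (step u).bind (law step n)

section

variable {V : Type*} {G : Type*}

namespace TTree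

def root : TTree V → V
  | leaf v => v
  | node v _ _ _ => v

open Classical in
noncomputable def occ (pos : V → G) : ℕ → TTree V → Finset G
  | 0, t => {pos t.root}
  | _ + 1, leaf _ => ∅
  | n + 1, node _ a b c => occ pos n a ∪ occ pos n b ∪ occ pos n c

lemma card_occ (pos : V → G) (n : ℕ) (t : TTree V) : (occ pos n t).card ≤ 3 ^ n := by
  classical
  induction n generalizing t with
  | zero => simp [occ]
  | succ n ih =>
    cases t with
    | leaf v => simp [occ]
    | node v a b c =>
      simp only [occ]
      calc _ ≤ (occ pos n a ∪ occ pos n b).card + (occ pos n c).card := Finset.card_union_le _ _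
        _ ≤ (occ pos n a).card + (occ pos n b).card + (occ pos n c).card := by
            gcongr; exact Finset.card_union_le _ _
        _ ≤ 3 ^ n + 3 ^ n + 3 ^ n := by gcongr <;> apply ih
        _ = 3 ^ (n + 1) := by ring

/-- `meet a b`: some node of `b` at level `m` has the position of a node of `a` at level `≤ m`. -/
def meet (pos : V → G) (a b : TTree V) : Prop :=
  ∃ m, ∃ n ∈ Finset.range (m + 1), ∃ y ∈ occ pos n a, y ∈ occ pos m b

/-- `hit v a`: some node of `a` has position `pos v`. -/
def hit (pos : V → G) (v : V) (a : TTree V) : Prop := ∃ m, pos v ∈ occ pos m a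

def all (pos : V → G) (a : TTree V) : Set G := {y | ∃ n, y ∈ occ pos n a}

lemma disjoint_of_not_meet {pos : V → G} {a b : TTree V} (h1 : ¬ meet pos a b)
    (h2 : ¬ meet pos b a) : Disjoint (all pos a) (all pos b) := by
  rw [Set.disjoint_left]
  rintro y ⟨n, hn⟩ ⟨m, hm⟩
  rcases le_total n m with h | h
  · exact h1 ⟨m, n, by simp; omega, y, hn, hm⟩
  · exact h2 ⟨n, m, by simp; omega, y, hm, hn⟩

/-- `pairOK`: no collision between two subtrees and with the root. -/
def pairOK (pos : V → G) (v : V) (a b : TTree V) : Prop :=
  ¬ meet pos a b ∧ ¬ meet pos b a ∧ ¬ hit pos v a ∧ ¬ hit pos v b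

/-- `Good D t`: the tree contains a collision free binary tree of depth `D`. -/
def Good (pos : V → G) : ℕ → TTree V → Prop
  | 0, _ => True
  | _ + 1, leaf _ => False
  | D + 1, node v a b c =>
      (Good pos D a ∧ Good pos D b ∧ pairOK pos v a b) ∨
      (Good pos D a ∧ Good pos D c ∧ pairOK pos v a c) ∨
      (Good pos D b ∧ Good pos D c ∧ pairOK pos v b c)

/-- steps of the tree -/
def Valid (R : V → V → Prop) : TTree V → Prop
  | leaf _ => True
  | node v a b c => R v a.root ∧ R v b.root ∧ R v c.root ∧ Valid R a ∧ Valid R b ∧ Valid R c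

lemma exists_binary (pos : V → G) (R : V → V → Prop) (D : ℕ) (t : TTree V) (hg : Good pos D t)
    (hv : Valid R t) :
    ∃ σ : List Bool → V, σ [] = t.root ∧
      (∀ w w', w.length ≤ D → w'.length ≤ D → pos (σ w) = pos (σ w') → w = w') ∧
      (∀ b w, w.length < D → R (σ w) (σ (w ++ [b]))) ∧
      (∀ w, w.length ≤ D → pos (σ w) ∈ all pos t) := by
  induction D generalizing t with
  | zero =>
    refine ⟨fun _ => t.root, rfl, ?_, ?_, ?_⟩
    · intro w w' h1 h2 _
      rw [List.eq_nil_of_length_eq_zero (by omega : w.length = 0),
        List.eq_nil_of_length_eq_zero (by omega : w'.length = 0)]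
    · intro b w hw; omega
    · intro w hw
      exact ⟨0, by simp [occ]⟩
  | succ D ih =>
    cases t with
    | leaf v => exact absurd hg (by simp [Good])
    | node v a b c =>
      obtain ⟨ha, hb, hc, va, vb, vc⟩ := hv
      -- a general combination statement
      have comb : ∀ x y : TTree V, R v x.root → R v y.root → Valid R x → Valid R y →
          Good pos D x → Good pos D y → pairOK pos v x y →
          (∀ n, occ pos n x ⊆ occ pos (n + 1) (node v a b c)) →
          (∀ n, occ pos n y ⊆ occ pos (n + 1) (node v a b c)) →
          ∃ σ : List Bool → V, σ [] = v ∧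
            (∀ w w', w.length ≤ D + 1 → w'.length ≤ D + 1 → pos (σ w) = pos (σ w') → w = w') ∧
            (∀ b w, w.length < D + 1 → R (σ w) (σ (w ++ [b]))) ∧
            (∀ w, w.length ≤ D + 1 → pos (σ w) ∈ all pos (node v a b c)) := by
        intro x y rx ry vx vy gx gy hp ox oy
        obtain ⟨σx, x0, x1, x2, x3⟩ := ih x gx vx
        obtain ⟨σy, y0, y1, y2, y3⟩ := ih y gy vy
        obtain ⟨m1, m2, h1, h2⟩ := hp
        have hdis := disjoint_of_not_meet m1 m2
        rw [Set.disjoint_left] at hdis
        refine ⟨fun w => match w with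
          | [] => v
          | true :: w => σx w
          | false :: w => σy w, rfl, ?_, ?_, ?_⟩
        · intro w w' hw hw' he
          match w, w' with
          | [], [] => rfl
          | [], true :: w' =>
            exact absurd (by
              obtain ⟨n, hn⟩ := x3 w' (by simpa using hw')
              exact ⟨n, by simpa [← he] using hn⟩) h1
          | [], false :: w' =>
            exact absurd (by
              obtain ⟨n, hn⟩ := y3 w' (by simpa using hw')
              exact ⟨n, by simpa [← he] using hn⟩) h2
          | true :: w, [] =>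
            exact absurd (by
              obtain ⟨n, hn⟩ := x3 w (by simpa using hw)
              exact ⟨n, by simpa [he] using hn⟩) h1
          | false :: w, [] =>
            exact absurd (by
              obtain ⟨n, hn⟩ := y3 w (by simpa using hw)
              exact ⟨n, by simpa [he] using hn⟩) h2
          | true :: w, true :: w' =>
            rw [x1 w w' (by simpa using hw) (by simpa using hw') he]
          | false :: w, false :: w' =>
            rw [y1 w w' (by simpa using hw) (by simpa using hw') he]
          | true :: w, false :: w' =>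
            exfalso
            refine hdis (x3 w (by simpa using hw)) ?_
            have := y3 w' (by simpa using hw')
            simpa [he] using this
          | false :: w, true :: w' =>
            exfalso
            refine hdis (x3 w' (by simpa using hw')) ?_
            have := y3 w (by simpa using hw)
            simpa [← he] using this
        · intro b' w hw
          match w with
          | [] =>
            cases b'
            · simpa [y0] using ry
            · simpa [x0] using rx
          | true :: w => exact x2 b' w (by simpa using hw)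
          | false :: w => exact y2 b' w (by simpa using hw)
        · intro w hw
          match w with
          | [] => exact ⟨0, by simp [occ, root]⟩
          | true :: w =>
            obtain ⟨n, hn⟩ := x3 w (by simpa using hw)
            exact ⟨n + 1, ox n hn⟩
          | false :: w =>
            obtain ⟨n, hn⟩ := y3 w (by simpa using hw)
            exact ⟨n + 1, oy n hn⟩
      have oa : ∀ n, occ pos n a ⊆ occ pos (n + 1) (node v a b c) := by
        intro n y hy; simp [occ, hy]
      have ob : ∀ n, occ pos n b ⊆ occ pos (n + 1) (node v a b c) := by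
        intro n y hy; simp [occ, hy]
      have oc : ∀ n, occ pos n c ⊆ occ pos (n + 1) (node v a b c) := by
        intro n y hy; simp [occ, hy]
      rcases hg with ⟨g1, g2, hp⟩ | ⟨g1, g2, hp⟩ | ⟨g1, g2, hp⟩
      · exact comb a b ha hb va vb g1 g2 hp oa ob
      · exact comb a c ha hc va vc g1 g2 hp oa oc
      · exact comb b c hb hc vb vc g1 g2 hp ob oc

end TTree

open TTree

/-- Random ternary tree of depth `D` grown by the kernel `q`. -/
noncomputable def rt (q : V → PMF V) : ℕ → V → PMF (TTree V)
  | 0, v => PMF.pure (TTree.leaf v)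
  | D + 1, v => ((q v).bind (rt q D)).bind fun a => ((q v).bind (rt q D)).bind fun b =>
      ((q v).bind (rt q D)).bind fun c => PMF.pure (TTree.node v a b c)

lemma root_of_mem (q : V → PMF V) (D : ℕ) (v : V) (t : TTree V) (ht : t ∈ (rt q D v).support) :
    t.root = v := by
  cases D with
  | zero => simp [rt] at ht; simp [ht, root]
  | succ D =>
    simp only [rt, PMF.mem_support_bind_iff, PMF.mem_support_pure_iff] at ht
    obtain ⟨a, ha, b, hb, c, hc, rfl⟩ := ht
    rfl

lemma valid_of_mem (q : V → PMF V) (R : V → V → Prop) (hR : ∀ u, ∀ v ∈ (q u).support, R u v)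
    (D : ℕ) (v : V) (t : TTree V) (ht : t ∈ (rt q D v).support) : Valid R t := by
  induction D generalizing v t with
  | zero => simp [rt] at ht; simp [ht, Valid]
  | succ D ih =>
    simp only [rt, PMF.mem_support_bind_iff, PMF.mem_support_pure_iff] at ht
    obtain ⟨a, ⟨a', ha', ha⟩, b, ⟨b', hb', hb⟩, c, ⟨c', hc', hc⟩, rfl⟩ := ht
    refine ⟨?_, ?_, ?_, ih _ _ ha, ih _ _ hb, ih _ _ hc⟩
    · rw [root_of_mem q D a' a ha]; exact hR _ _ ha'
    · rw [root_of_mem q D b' b hb]; exact hR _ _ hb'
    · rw [root_of_mem q D c' c hc]; exact hR _ _ hc'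

lemma bind_le {X Y : Type*} (p : PMF X) (f : X → PMF Y) (s : Set Y) (ε : ℝ≥0∞)
    (h : ∀ x ∈ p.support, (f x).toOuterMeasure s ≤ ε) : (p.bind f).toOuterMeasure s ≤ ε := by
  rw [PMF.toOuterMeasure_bind_apply]
  calc ∑' x, p x * (f x).toOuterMeasure s ≤ ∑' x, p x * ε := by
        refine ENNReal.tsum_le_tsum fun x => ?_
        by_cases hx : x ∈ p.support
        · gcongr; exact h x hx
        · rw [PMF.mem_support_iff, not_not] at hx
          simp [hx]
    _ = ε := by rw [ENNReal.tsum_mul_right, PMF.tsum_coe, one_mul]

lemma bind_pure_outer {X Y : Type*} (p : PMF X) (f : X → Y) (s : Set Y) :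
    (p.bind fun x => PMF.pure (f x)).toOuterMeasure s = p.toOuterMeasure {x | f x ∈ s} := by
  have : (p.bind fun x => PMF.pure (f x)) = p.map f := rfl
  rw [this, PMF.toOuterMeasure_map_apply]
  rfl

/-- `κ`: the law of a child subtree. -/
noncomputable def sub (q : V → PMF V) (D : ℕ) (v : V) : PMF (TTree V) := (q v).bind (rt q D)

lemma rt_succ (q : V → PMF V) (D : ℕ) (v : V) :
    rt q (D + 1) v = (sub q D v).bind fun a => (sub q D v).bind fun b =>
      (sub q D v).bind fun c => PMF.pure (TTree.node v a b c) := rfl

lemma outer_compl_support {X : Type*} (p : PMF X) (s t : Set X) (h : p.support ∩ s ⊆ t) :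
    p.toOuterMeasure s ≤ p.toOuterMeasure t := by
  rw [PMF.toOuterMeasure_apply, PMF.toOuterMeasure_apply]
  refine ENNReal.tsum_le_tsum fun x => ?_
  by_cases hx : x ∈ s
  · by_cases hx' : x ∈ p.support
    · simp [Set.indicator, hx, h ⟨hx', hx⟩]
    · rw [PMF.mem_support_iff, not_not] at hx'
      simp [Set.indicator, hx']
  · simp [Set.indicator, hx]

lemma triple_le (κ : PMF (TTree V)) (v : V) (s : Set (TTree V)) (sa sb sc : Set (TTree V))
    (h : ∀ a b c, TTree.node v a b c ∈ s → a ∈ sa ∨ b ∈ sb ∨ c ∈ sc) :
    (κ.bind fun a => κ.bind fun b => κ.bind fun c =>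
      PMF.pure (TTree.node v a b c)).toOuterMeasure s ≤
      κ.toOuterMeasure sa + κ.toOuterMeasure sb + κ.toOuterMeasure sc := by
  classical
  have h1 : s ∩ {t | ∃ a b c, t = TTree.node v a b c} ⊆
      {t | ∃ a b c, t = TTree.node v a b c ∧ a ∈ sa} ∪
      {t | ∃ a b c, t = TTree.node v a b c ∧ b ∈ sb} ∪
      {t | ∃ a b c, t = TTree.node v a b c ∧ c ∈ sc} := by
    rintro t ⟨ht, a, b, c, rfl⟩
    rcases h a b c ht with h | h | h
    · exact Or.inl (Or.inl ⟨a, b, c, rfl, h⟩)
    · exact Or.inl (Or.inr ⟨a, b, c, rfl, h⟩)
    · exact Or.inr ⟨a, b, c, rfl, h⟩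
  set P := (κ.bind fun a => κ.bind fun b => κ.bind fun c => PMF.pure (TTree.node v a b c))
    with hP
  have h0 : P.toOuterMeasure s ≤ P.toOuterMeasure (s ∩ {t | ∃ a b c, t = TTree.node v a b c}) := by
    apply outer_compl_support
    rintro t ⟨ht, hs⟩
    refine ⟨hs, ?_⟩
    simp only [hP, PMF.mem_support_bind_iff, PMF.mem_support_pure_iff] at ht
    obtain ⟨a, ha, b, hb, c, hc, rfl⟩ := ht
    exact ⟨a, b, c, rfl⟩
  refine h0.trans ((MeasureTheory.measure_mono h1).trans
    ((MeasureTheory.measure_union_le _ _).trans (add_le_add
      ((MeasureTheory.measure_union_le _ _).trans (add_le_add ?_ ?_)) ?_)))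
  · have e : P = κ.bind fun b => κ.bind fun c => κ.bind fun a =>
        PMF.pure (TTree.node v a b c) := by
      rw [hP, PMF.bind_comm]
      congr 1; funext b; rw [PMF.bind_comm]
    rw [e]
    refine bind_le _ _ _ _ fun b _ => bind_le _ _ _ _ fun c _ => ?_
    rw [bind_pure_outer]
    apply MeasureTheory.measure_mono
    rintro a ⟨a', b', c', h, h'⟩
    simp only [TTree.node.injEq] at h
    obtain ⟨_, rfl, _⟩ := h
    exact h'
  · have e : P = κ.bind fun a => κ.bind fun c => κ.bind fun b =>
        PMF.pure (TTree.node v a b c) := by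
      rw [hP]
      congr 1; funext b; rw [PMF.bind_comm]
    rw [e]
    refine bind_le _ _ _ _ fun b _ => bind_le _ _ _ _ fun c _ => ?_
    rw [bind_pure_outer]
    apply MeasureTheory.measure_mono
    rintro a ⟨a', b', c', h, h'⟩
    simp only [TTree.node.injEq] at h
    obtain ⟨_, _, rfl, _⟩ := h
    exact h'
  · refine bind_le _ _ _ _ fun b _ => bind_le _ _ _ _ fun c _ => ?_
    rw [bind_pure_outer]
    apply MeasureTheory.measure_mono
    rintro a ⟨a', b', c', h, h'⟩
    simp only [TTree.node.injEq] at h
    obtain ⟨_, _, _, rfl⟩ := h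
    exact h'

lemma occ_bound (pos : V → G) (q : V → PMF V) (n D : ℕ) (v : V) (y : G) :
    (rt q D v).toOuterMeasure {t | y ∈ occ pos n t} ≤ 3 ^ n * ((law q n v).map pos) y := by
  classical
  induction n generalizing D v with
  | zero =>
    simp only [pow_zero, one_mul, law]
    have h1 : (rt q D v).toOuterMeasure {t | y ∈ occ pos 0 t} ≤
        (rt q D v).toOuterMeasure (if y = pos v then Set.univ else ∅) := by
      apply outer_compl_support
      rintro t ⟨ht, hy⟩
      have := root_of_mem q D v t ht
      simp only [occ, this, Set.mem_ofPred_eq, Finset.mem_singleton] at hy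
      simp [hy]
    refine h1.trans ?_
    by_cases hy : y = pos v
    · rw [if_pos hy, PMF.pure_map, PMF.pure_apply, if_pos hy]
      rw [PMF.toOuterMeasure_apply]
      simp
    · simp [hy]
  | succ n ih =>
    cases D with
    | zero =>
      rw [rt, PMF.toOuterMeasure_pure_apply]
      simp [occ]
    | succ D =>
      rw [rt_succ]
      have key : (sub q D v).toOuterMeasure {t | y ∈ occ pos n t} ≤
          3 ^ n * ((law q (n + 1) v).map pos) y := by
        rw [sub, PMF.toOuterMeasure_bind_apply]
        calc ∑' u, q v u * (rt q D u).toOuterMeasure {t | y ∈ occ pos n t}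
            ≤ ∑' u, q v u * (3 ^ n * ((law q n u).map pos) y) :=
              ENNReal.tsum_le_tsum fun u => by gcongr; exact ih D u
          _ = 3 ^ n * ∑' u, q v u * ((law q n u).map pos) y := by
              rw [← ENNReal.tsum_mul_left]
              congr 1; funext u; ring
          _ = 3 ^ n * ((law q (n + 1) v).map pos) y := by
              rw [law, PMF.map_bind, PMF.bind_apply]
      refine (triple_le _ v _ _ _ _ ?_).trans (le_trans (add_le_add (add_le_add key key) key) ?_)
      · intro a b c h
        simp only [occ, Set.mem_ofPred_eq, Finset.mem_union] at h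
        rcases h with (h | h) | h
        · exact Or.inl h
        · exact Or.inr (Or.inl h)
        · exact Or.inr (Or.inr h)
      · apply le_of_eq
        ring

end

end Pool.Agent.Helper241Spread
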