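import Pool.Agent.Helper241_Spread.Product

set_option autoImplicit false

namespace Pool.Agent.Helper241Spread.SubexpFibres

open Pool.Agent.Helper241Spread
open scoped Pointwise

/-- **Supramenability pulls back along maps with subexponentially growing fibres.**
Let `f : G → Q` be a map between groups such that

* for every `k : G` the elements `f (k * x) * (f x)⁻¹` (`x : G`) form a finite set, and
* for every finite `K ⊆ G` and every `b > 1` there is `C` such that for all `n`, `x`, `y` at most
  `C * b ^ n` elements `z ∈ K ^ n * x` satisfy `f z = y`.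

If `Q` is supramenable then so is `G`. -/
theorem result (G Q : Type*) [Group G] [Group Q] (f : G → Q)
    (hstep : ∀ k : G, (Set.range fun x : G => f (k * x) * (f x)⁻¹).Finite)
    (hfib : ∀ K : Set G, K.Finite → ∀ b : ℝ, 1 < b → ∃ C : ℝ, ∀ (n : ℕ) (x : G) (y : Q),
      (Set.ncard {z : G | z * x⁻¹ ∈ K ^ n ∧ f z = y} : ℝ) ≤ C * b ^ n)
    (hQ : Supramenable Q) : Supramenable G := by
  classical
  refine supramenable_of_fibres f (fun k => ⟨(hstep k).toFinset, fun x => ?_⟩) hfib hQ
  exact ⟨f (k * x) * (f x)⁻¹, by simp, by simp⟩

/-- The case of a trivial target: exponentially bounded groups are supramenable. -/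
theorem of_expBounded (G : Type*) [Group G] (hG : ExpBounded G)
    (h1 : Supramenable (Multiplicative (Fin 1))) : Supramenable G := by
  classical
  refine result G (Multiplicative (Fin 1)) (fun _ => 1) (fun k => Set.toFinite _) ?_ h1
  intro K hK b hb
  obtain ⟨C, hC0, hC⟩ := bound_of_expBounded hG hK.toFinset b hb
  refine ⟨C, fun n x y => le_trans ?_ (hC n)⟩
  have h2 : Set.ncard {z : G | z * x⁻¹ ∈ K ^ n ∧ (1 : Multiplicative (Fin 1)) = y} ≤
      Set.ncard (ball hK.toFinset n) := by
    refine Set.ncard_le_ncard_of_injOn (fun z => z * x⁻¹) ?_ ?_ (finite_ball _ n)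
    · intro z hz
      apply pow_subset_ball
      rw [Set.Finite.coe_toFinset]
      exact hz.1
    · intro z _ z' _ he
      exact mul_right_cancel he
  exact_mod_cast h2

end Pool.Agent.Helper241Spread.SubexpFibres
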