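import Pool.Agent.Helper241_Spread.Converse

set_option autoImplicit false

namespace Pool.Agent.Helper241Spread

open scoped ENNReal Pointwise
open Filter

section Ext

variable {G : Type*} [Group G]

/-- a piece of a partial translation into `A` -/
def piece (A B : Set G) (φ : G → G) (g : G) : Set G := {x | x ∈ B ∧ φ x = g ∧ g * x ∈ A}

/-- the sum attached to a piecewise translation -/
noncomputable def psum (m : Set G → ℝ≥0∞) (A B : Set G) (F : Finset G) (φ : G → G) : ℝ≥0∞ :=
  ∑ g ∈ F, m ((fun x => g * x) '' piece A B φ g)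

/-- the extension of `m` to all subsets -/
noncomputable def ext (m : Set G → ℝ≥0∞) (A B : Set G) : ℝ≥0∞ :=
  ⨆ p : Finset G × (G → G), psum m A B p.1 p.2

variable {m : Set G → ℝ≥0∞} {A : Set G}

lemma psum_union (hadd : ∀ B C : Set G, Disjoint B C → m (B ∪ C) = m B + m C)
    {B C : Set G} (hd : Disjoint B C) (F : Finset G) (φ : G → G) :
    psum m A (B ∪ C) F φ = psum m A B F φ + psum m A C F φ := by
  unfold psum
  rw [← Finset.sum_add_distrib]
  apply Finset.sum_congr rfl
  intro g _
  rw [← hadd, ← Set.image_union]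
  · congr 2
    ext x
    simp only [piece, Set.mem_union, Set.mem_ofPred_eq]
    tauto
  · rw [Set.disjoint_image_iff (mul_right_injective g)]
    rw [Set.disjoint_left] at hd ⊢
    intro x hx hx'
    exact hd hx.1 hx'.1

lemma psum_congr {B : Set G} (F : Finset G) (φ ψ : G → G) (h : ∀ x ∈ B, φ x = ψ x) :
    psum m A B F φ = psum m A B F ψ := by
  unfold psum
  apply Finset.sum_congr rfl
  intro g _
  congr 2
  ext x
  simp only [piece, Set.mem_ofPred_eq]
  constructor
  · rintro ⟨h1, h2, h3⟩; exact ⟨h1, by rw [← h x h1, h2], h3⟩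
  · rintro ⟨h1, h2, h3⟩; exact ⟨h1, by rw [h x h1, h2], h3⟩

lemma psum_mono {B : Set G} {F F' : Finset G} (hF : F ⊆ F') (φ : G → G) :
    psum m A B F φ ≤ psum m A B F' φ := by
  unfold psum
  exact Finset.sum_le_sum_of_subset hF

lemma ext_union (hadd : ∀ B C : Set G, Disjoint B C → m (B ∪ C) = m B + m C)
    (B C : Set G) (hd : Disjoint B C) : ext m A (B ∪ C) = ext m A B + ext m A C := by
  classical
  apply le_antisymm
  · apply iSup_le
    intro p
    rw [psum_union hadd hd]
    gcongr
    · exact le_iSup (fun p : Finset G × (G → G) => psum m A B p.1 p.2) p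
    · exact le_iSup (fun p : Finset G × (G → G) => psum m A C p.1 p.2) p
  · apply ENNReal.iSup_add_iSup_le
    intro p q
    set φ : G → G := fun x => if x ∈ B then p.2 x else q.2 x with hφ
    have h1 : psum m A B p.1 p.2 ≤ psum m A B (p.1 ∪ q.1) φ := by
      rw [psum_congr p.1 p.2 φ (fun x hx => by simp [hφ, hx])]
      exact psum_mono Finset.subset_union_left φ
    have h2 : psum m A C q.1 q.2 ≤ psum m A C (p.1 ∪ q.1) φ := by
      rw [psum_congr q.1 q.2 φ (fun x hx => by
        have : x ∉ B := fun h => Set.disjoint_left.1 hd h hx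
        simp [hφ, this])]
      exact psum_mono Finset.subset_union_right φ
    calc psum m A B p.1 p.2 + psum m A C q.1 q.2
        ≤ psum m A B (p.1 ∪ q.1) φ + psum m A C (p.1 ∪ q.1) φ := by gcongr
      _ = psum m A (B ∪ C) (p.1 ∪ q.1) φ := (psum_union hadd hd _ _).symm
      _ ≤ ext m A (B ∪ C) :=
          le_iSup (fun p : Finset G × (G → G) => psum m A (B ∪ C) p.1 p.2) (p.1 ∪ q.1, φ)

lemma ext_empty (h0 : m ∅ = 0) : ext m A ∅ = 0 := by
  rw [ext]
  simp only [ENNReal.iSup_eq_zero]
  intro p
  unfold psum
  apply Finset.sum_eq_zero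
  intro g _
  have : piece A ∅ p.2 g = ∅ := by
    ext x; simp [piece]
  rw [this]; simpa using h0

lemma ext_self (h0 : m ∅ = 0) (hA : m A = 1)
    (hadd : ∀ B C : Set G, Disjoint B C → m (B ∪ C) = m B + m C)
    (hinv : ∀ (g : G) (B : Set G), B ⊆ A → (fun x => g * x) '' B ⊆ A →
        m ((fun x => g * x) '' B) = m B) : ext m A A = 1 := by
  classical
  apply le_antisymm
  · apply iSup_le
    rintro ⟨F, φ⟩
    calc psum m A A F φ = ∑ g ∈ F, m (piece A A φ g) := by
          unfold psum
          apply Finset.sum_congr rfl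
          intro g _
          apply hinv
          · intro x hx; exact hx.1
          · rintro y ⟨x, hx, rfl⟩; exact hx.2.2
      _ = m (⋃ g ∈ F, piece A A φ g) := by
          rw [add_finset h0 hadd]
          intro g _ g' _ hne
          rw [Function.onFun, Set.disjoint_left]
          intro x hx hx'
          exact hne (hx.2.1.symm.trans hx'.2.1)
      _ ≤ m A := by
          apply mono_of_add hadd
          intro x hx
          simp only [Set.mem_iUnion] at hx
          obtain ⟨g, _, hx⟩ := hx
          exact hx.1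
      _ = 1 := hA
  · have : psum m A A {1} (fun _ => 1) = 1 := by
      unfold psum
      rw [Finset.sum_singleton]
      have : (fun x => (1 : G) * x) '' piece A A (fun _ => 1) 1 = A := by
        ext x; simp [piece]
      rw [this, hA]
    rw [← this]
    exact le_iSup (fun p : Finset G × (G → G) => psum m A A p.1 p.2) ({1}, fun _ => 1)

lemma ext_preimage_le (h : G) (B : Set G) :
    ext m A ((fun x => h * x) ⁻¹' B) ≤ ext m A B := by
  classical
  apply iSup_le
  rintro ⟨F, φ⟩
  have : psum m A ((fun x => h * x) ⁻¹' B) F φ =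
      psum m A B (F.image fun g => g * h⁻¹) (fun y => φ (h⁻¹ * y) * h⁻¹) := by
    unfold psum
    rw [Finset.sum_image (fun a _ b _ hab => mul_right_cancel hab)]
    apply Finset.sum_congr rfl
    intro g _
    congr 1
    ext y
    simp only [piece, Set.mem_image, Set.mem_ofPred_eq, Set.mem_preimage]
    constructor
    · rintro ⟨x, ⟨h1, h2, h3⟩, rfl⟩
      refine ⟨h * x, ⟨h1, ?_, ?_⟩, ?_⟩
      · simp [h2]
      · simpa [mul_assoc] using h3
      · simp [mul_assoc]
    · rintro ⟨x, ⟨h1, h2, h3⟩, rfl⟩
      refine ⟨h⁻¹ * x, ⟨by simpa using h1, ?_, ?_⟩, by simp [mul_assoc]⟩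
      · exact mul_right_cancel h2
      · simpa [mul_assoc] using h3
  simp only
  rw [this]
  exact le_iSup (fun p : Finset G × (G → G) => psum m A B p.1 p.2)
    (F.image fun g => g * h⁻¹, fun y => φ (h⁻¹ * y) * h⁻¹)

lemma ext_preimage (h : G) (B : Set G) :
    ext m A ((fun x => h * x) ⁻¹' B) = ext m A B := by
  apply le_antisymm (ext_preimage_le h B)
  have := ext_preimage_le (m := m) (A := A) h⁻¹ ((fun x => h * x) ⁻¹' B)
  rw [Set.preimage_preimage] at this
  simpa using this

end Ext

section Hall

variable {G : Type*} [Group G]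

open Classical in
/-- If no finitely additive invariant measure gives `A` measure one, then `A` doubles. -/
lemma doubling_of_no_measure (A : Set G)
    (h : ¬ ∃ μ : Set G → ENNReal,
      μ ∅ = 0 ∧
      (∀ B C : Set G, Disjoint B C → μ (B ∪ C) = μ B + μ C) ∧
      (∀ (g : G) (B : Set G), μ ((fun x => g * x) ⁻¹' B) = μ B) ∧
      μ A = 1) :
    ∃ K : Finset G, ∀ X : Finset G, (X : Set G) ⊆ A →
      2 * X.card ≤ ((K * X).filter (· ∈ A)).card := by
  by_contra hcon
  push Not at hcon
  obtain ⟨m, h0, h1, h2, h3⟩ := exists_mean A hcon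
  exact h ⟨ext m A, ext_empty h0, ext_union h2, ext_preimage, ext_self h0 h1 h2 h3⟩

lemma exists_doubling_map (A : Set G) [DecidableEq G] (K : Finset G)
    (h : ∀ X : Finset G, (X : Set G) ⊆ A →
      2 * X.card ≤ ((K * X).filter (fun x => (Classical.dec (x ∈ A)).decide)).card) :
    ∃ f : A × Bool → A, Function.Injective f ∧ ∀ a b, ∃ k ∈ K, (f (a, b) : G) = k * a := by
  classical
  set t : A × Bool → Finset G := fun p => (K * {(p.1 : G)}).filter (· ∈ A) with ht
  have hall : ∀ s : Finset (A × Bool), s.card ≤ (s.biUnion t).card := by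
    intro s
    set X : Finset G := s.image (fun p => (p.1 : G)) with hX
    have hXA : (X : Set G) ⊆ A := by
      intro x hx
      simp only [hX, Finset.coe_image, Set.mem_image] at hx
      obtain ⟨p, _, rfl⟩ := hx
      exact p.1.2
    have h1 : s.card ≤ 2 * X.card := by
      have hs : s ⊆ (X.subtype (· ∈ A)) ×ˢ (Finset.univ : Finset Bool) := by
        intro p hp
        rw [Finset.mem_product]
        refine ⟨?_, Finset.mem_univ _⟩
        rw [Finset.mem_subtype, hX, Finset.mem_image]
        exact ⟨p, hp, rfl⟩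
      have := Finset.card_le_card hs
      rw [Finset.card_product, Finset.card_subtype] at this
      have h2 : (X.filter (· ∈ A)).card ≤ X.card := Finset.card_filter_le _ _
      simp only [Finset.card_univ, Fintype.card_bool] at this
      omega
    have h2 : ((K * X).filter (fun x => (Classical.dec (x ∈ A)).decide)) ⊆ s.biUnion t := by
      intro y hy
      rw [Finset.mem_filter, Finset.mem_mul] at hy
      obtain ⟨⟨k, hk, x, hx, rfl⟩, hyA⟩ := hy
      simp only [hX, Finset.mem_image] at hx
      obtain ⟨p, hp, rfl⟩ := hx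
      rw [Finset.mem_biUnion]
      refine ⟨p, hp, ?_⟩
      rw [ht, Finset.mem_filter]
      exact ⟨Finset.mul_mem_mul hk (by simp), by simpa using hyA⟩
    exact h1.trans ((h X hXA).trans (Finset.card_le_card h2))
  rw [Finset.all_card_le_biUnion_card_iff_exists_injective] at hall
  obtain ⟨f, hf, hft⟩ := hall
  have hfA : ∀ p, f p ∈ A := fun p => by
    have := hft p
    rw [ht, Finset.mem_filter] at this
    exact this.2
  refine ⟨fun p => ⟨f p, hfA p⟩, ?_, ?_⟩
  · intro p q hpq
    exact hf (by simpa using hpq)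
  · intro a b
    have := hft (a, b)
    rw [ht, Finset.mem_filter, Finset.mem_mul] at this
    obtain ⟨⟨k, hk, x, hx, he⟩, _⟩ := this
    simp only [Finset.mem_singleton] at hx
    exact ⟨k, hk, by simp only; rw [← he, hx]⟩

end Hall

end Pool.Agent.Helper241Spread
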